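import Pool.Agent.W82_c2305b.Account

/-!
# Packing, clusters of vertices and a cut-off function (brick B5 of ALLFAT)

`W P = ⋃ S P i` is the set of vertices.  Two cells share at most two vertices, and a ball meets a
bounded number of cells of area `≥ 1`; so a chain of short steps through vertices that lie in good cells
only is bounded.  The cut-off `f` is constant on the classes of the graph `nearG` of short steps, vanishes
on the vertices of bad cells, and changes by `≤ C / k0` along a cell.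
-/

open Set Module Topology Filter MeasureTheory

namespace W82

variable {ι : Type*} {D : Set V} {P : ι → Set V}

/-- All vertices. -/
def Wv (P : ι → Set V) : Set V := ⋃ i, S P i

/-- The graph of short steps between vertices. -/
def nearG (P : ι → Set V) (l : ℝ) : SimpleGraph V where
  Adj v w := v ≠ w ∧ v ∈ Wv P ∧ w ∈ Wv P ∧ dist v w < l
  symm := ⟨fun _ _ h => ⟨h.1.symm, h.2.2.1, h.2.1, by rw [dist_comm]; exact h.2.2.2⟩⟩
  loopless := ⟨fun _ h => h.1 rfl⟩

theorem vol_ball_le (x : V) {r : ℝ} (hr : 0 ≤ r) :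
    (volume (Metric.closedBall x r)).toReal ≤ 4 * r ^ 2 := by
  rw [EuclideanSpace.volume_closedBall_fin_two]
  rw [ENNReal.toReal_mul, ENNReal.toReal_pow, ENNReal.toReal_ofReal hr,
    ENNReal.toReal_ofReal Real.pi_pos.le]
  have h2 : Real.pi ≤ 4 := Real.pi_le_four
  nlinarith [sq_nonneg r]

/-- Packing. -/
theorem Tiling.packing (h : Tiling D P) (x : V) {r a : ℝ} (hr : 0 ≤ r) (A : Finset ι)
    (hA : ∀ i ∈ A, P i ⊆ Metric.closedBall x r) (hv : ∀ i ∈ A, a ≤ (volume (P i)).toReal) :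
    a * A.card ≤ 4 * r ^ 2 := by
  classical
  have h1 : volume (⋃ i ∈ A, P i) = ∑ i ∈ A, volume (P i) := by
    refine measure_biUnion_finset₀ ?_ fun i _ => (h.closed i).measurableSet.nullMeasurableSet
    intro i _ j _ hij
    exact h.ae_disj hij
  have h2 : (volume (⋃ i ∈ A, P i)).toReal ≤ 4 * r ^ 2 := by
    refine le_trans (ENNReal.toReal_mono ?_ (measure_mono (iUnion₂_subset hA))) (vol_ball_le x hr)
    exact (isCompact_closedBall x r).measure_lt_top.ne
  rw [h1, ENNReal.toReal_sum fun i _ => (h.comp i).measure_lt_top.ne] at h2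
  have h3 : a * A.card ≤ ∑ i ∈ A, (volume (P i)).toReal := by
    calc a * A.card = ∑ i ∈ A, a := by rw [Finset.sum_const, nsmul_eq_mul, mul_comm]
      _ ≤ _ := Finset.sum_le_sum hv
  linarith

/-- Two cells share at most two vertices. -/
theorem Tiling.two_shared [Finite ι] (h : Tiling D P) {j k : ι} (hjk : j ≠ k) :
    ({v | v ∈ Wv P ∧ v ∈ P j ∧ v ∈ P k} : Set V).ncard ≤ 2 := by
  have hfin : ({v | v ∈ Wv P ∧ v ∈ P j ∧ v ∈ P k} : Set V).Finite :=
    h.union_finite.subset fun v hv => hv.1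
  by_contra hcon
  rw [not_le] at hcon
  obtain ⟨a, b, c, ha, hb, hc, hab, hac, hbc⟩ := (Set.two_lt_ncard_iff hfin).mp hcon
  obtain ⟨f, s, hf, h1, h2⟩ := h.sep hjk
  have hfa : ∀ v, v ∈ P j → v ∈ P k → f v = s := fun v hv hv' => le_antisymm (h1 v hv) (h2 v hv')
  -- no vertex strictly between two common points
  have hmid : ∀ v x y : V, v ∈ Wv P → v ∈ P j → v ∈ P k → x ∈ P j → x ∈ P k → y ∈ P j → y ∈ P k →
      x ≠ y → v ∈ openSegment ℝ x y → False := by
    intro v x y hv hvj hvk hxj hxk hyj hyk hxy hseg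
    obtain ⟨i, hi⟩ := mem_iUnion.mp hv
    have hnot : ∀ l : ι, x ∈ P l → y ∈ P l → v ∉ (P l).extremePoints ℝ := by
      intro l hx hy hext
      have h3 := hext.2 hx hy hseg
      subst h3
      exact hxy ((left_mem_openSegment_iff).1 hseg)
    exact h.claimB hjk hi.1 hvj (hnot j hxj hyj) hvk (hnot k hxk hyk)
  have hba : b - a ≠ 0 := sub_ne_zero.mpr hab.symm
  have hfba : f (b - a) = 0 := by rw [map_sub, hfa b hb.2.1 hb.2.2, hfa a ha.2.1 ha.2.2, sub_self]
  have hfca : f (c - a) = 0 := by rw [map_sub, hfa c hc.2.1 hc.2.2, hfa a ha.2.1 ha.2.2, sub_self]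
  obtain ⟨l, hl⟩ := C2305b.TL.functional_eq hba hfba
  have hl0 : l ≠ 0 := by
    rintro rfl
    apply hf
    ext x
    rw [hl]
    simp
  have hcr : C2305b.TL.cr (b - a) (c - a) = 0 := by
    have := hl (c - a)
    rw [hfca] at this
    rcases mul_eq_zero.1 this.symm with h3 | h3
    · exact absurd h3 hl0
    · exact h3
  obtain ⟨t, ht⟩ := C2305b.TL.exists_smul_of_cr_eq_zero hba hcr
  have hca : c = a + t • (b - a) := by rw [← ht]; abel
  rcases lt_trichotomy t 0 with h0 | h0 | h0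
  · -- a between c and b
    refine hmid a c b ha.1 ha.2.1 ha.2.2 hc.2.1 hc.2.2 hb.2.1 hb.2.2 hbc.symm ?_
    have hp : 0 < 1 - t := by linarith
    refine ⟨1 / (1 - t), -t / (1 - t), by positivity, div_pos (by linarith) hp, ?_, ?_⟩
    · field_simp
      ring
    · rw [hca]
      have e1 : (1 / (1 - t)) • (a + t • (b - a)) + (-t / (1 - t)) • b =
          (1 / (1 - t) * (1 - t)) • a + (t / (1 - t) + -t / (1 - t)) • b := by
        module
      rw [e1, one_div_mul_cancel hp.ne']
      have e2 : t / (1 - t) + -t / (1 - t) = 0 := by ring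
      rw [e2]
      simp
  · rw [h0, zero_smul, add_zero] at hca
    exact hac hca.symm
  · rcases lt_trichotomy t 1 with h4 | h4 | h4
    · refine hmid c a b hc.1 hc.2.1 hc.2.2 ha.2.1 ha.2.2 hb.2.1 hb.2.2 hab ?_
      refine ⟨1 - t, t, by linarith, h0, by ring, ?_⟩
      rw [hca]
      module
    · rw [h4, one_smul] at hca
      apply hbc
      rw [hca]
      abel
    · refine hmid b a c hb.1 hb.2.1 hb.2.2 ha.2.1 ha.2.2 hc.2.1 hc.2.2 hac ?_
      refine ⟨1 - 1 / t, 1 / t, ?_, by positivity, by ring, ?_⟩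
      · have : 1 / t < 1 := by rw [div_lt_one h0]; exact h4
        linarith
      · rw [hca]
        have e1 : (1 - 1 / t) • a + (1 / t) • (a + t • (b - a)) =
            (1 - 1 / t * t) • a + (1 / t * t) • b := by
          module
        rw [e1, one_div_mul_cancel h0.ne']
        simp

/-- Number of good cells that meet a ball of radius `1`. -/
theorem Tiling.cells_count (h : Tiling D P) {al a : ℝ} (hal : 0 ≤ al) (ha : 0 < a)
    (hball : ∀ i, ∀ x ∈ P i, ∀ y ∈ P i, dist x y ≤ al) {bad : Set ι}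
    (hgood : ∀ i, i ∉ bad → a ≤ (volume (P i)).toReal) {N : ℕ} (hN : 4 * (1 + al) ^ 2 / a ≤ N)
    (x : V) (J : Finset ι) (hJ : ∀ i ∈ J, i ∉ bad ∧ ∃ v ∈ P i, dist v x ≤ 1) : J.card ≤ N := by
  have h1 := h.packing x (r := 1 + al) (by linarith) J (by
    intro i hi y hy
    obtain ⟨-, v, hv, hvx⟩ := hJ i hi
    have h2 := hball i y hy v hv
    have h3 := dist_triangle y v x
    rw [Metric.mem_closedBall]
    linarith) (fun i hi => hgood i (hJ i hi).1)
  have h2 : (J.card : ℝ) ≤ N := by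
    refine le_trans ?_ hN
    rw [le_div_iff₀ ha]
    linarith
  exact_mod_cast h2

/-- Number of good vertices in a ball of radius `1`. -/
theorem Tiling.ball_count [Fintype ι] (h : Tiling D P) {al a : ℝ} (hal : 0 ≤ al) (ha : 0 < a)
    (hball : ∀ i, ∀ x ∈ P i, ∀ y ∈ P i, dist x y ≤ al) {bad : Set ι}
    (hgood : ∀ i, i ∉ bad → a ≤ (volume (P i)).toReal) {N : ℕ} (hN : 4 * (1 + al) ^ 2 / a ≤ N)
    (x : V) (A : Finset V)
    (hA : ∀ v ∈ A, v ∈ Wv P ∧ dist v x ≤ 1 ∧ ∀ i, v ∈ P i → i ∉ bad) :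
    A.card ≤ 2 * N ^ 2 := by
  classical
  set J : Finset ι := Finset.univ.filter fun i => i ∉ bad ∧ ∃ v ∈ P i, dist v x ≤ 1 with hJ
  have hJc : J.card ≤ N := h.cells_count hal ha hball hgood hN x J (by
    intro i hi
    rw [hJ, Finset.mem_filter] at hi
    exact hi.2)
  set F : ι × ι → Finset V := fun p => if p.1 = p.2 then ∅ else
    (h.union_finite.toFinset).filter fun v => v ∈ P p.1 ∧ v ∈ P p.2 with hF
  have hsub : A ⊆ (J ×ˢ J).biUnion F := by
    intro v hv
    obtain ⟨hvW, hvx, hvg⟩ := hA v hv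
    obtain ⟨i, hi⟩ := mem_iUnion.mp hvW
    obtain ⟨j, hji, hj⟩ := hi.2
    rw [Finset.mem_biUnion]
    refine ⟨(i, j), ?_, ?_⟩
    · rw [Finset.mem_product, hJ, Finset.mem_filter, Finset.mem_filter]
      exact ⟨⟨Finset.mem_univ _, hvg i hi.1.1, v, hi.1.1, hvx⟩,
        ⟨Finset.mem_univ _, hvg j hj, v, hj, hvx⟩⟩
    · rw [hF]
      simp only
      rw [if_neg (Ne.symm hji), Finset.mem_filter, Set.Finite.mem_toFinset]
      exact ⟨hvW, hi.1.1, hj⟩
  have hcard : ((J ×ˢ J).biUnion F).card ≤ (J ×ˢ J).card * 2 := by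
    refine Finset.card_biUnion_le_card_mul _ _ _ fun p _ => ?_
    rw [hF]
    simp only
    split_ifs with hp
    · simp
    · have h2 := h.two_shared hp
      have e : ({v | v ∈ Wv P ∧ v ∈ P p.1 ∧ v ∈ P p.2} : Set V) =
          ((h.union_finite.toFinset).filter fun v => v ∈ P p.1 ∧ v ∈ P p.2 : Finset V) := by
        ext v
        simp [Wv]
      rw [e, Set.ncard_coe_finset] at h2
      exact h2
  have h3 := (Finset.card_le_card hsub).trans hcard
  rw [Finset.card_product] at h3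
  calc A.card ≤ J.card * J.card * 2 := h3
    _ ≤ N * N * 2 := by gcongr
    _ = 2 * N ^ 2 := by ring

theorem nearG_walk {P : ι → Set V} {l : ℝ} {v w : V} (hv : v ∈ Wv P)
    (p : (nearG P l).Walk v w) (k : ℕ) (hk : k ≤ p.length) :
    p.getVert k ∈ Wv P ∧ dist v (p.getVert k) ≤ k * l := by
  induction k with
  | zero =>
    rw [SimpleGraph.Walk.getVert_zero]
    exact ⟨hv, by simp⟩
  | succ k ih =>
    have h1 := ih (by omega)
    have h2 := p.adj_getVert_succ (i := k) (by omega)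
    refine ⟨h2.2.2.1, ?_⟩
    have h3 := dist_triangle v (p.getVert k) (p.getVert (k + 1))
    have h4 := h2.2.2.2
    push_cast
    linarith [h1.2]

/-- **Clusters.**  Either a bad vertex is near, or the class is small and consists of good vertices. -/
theorem Tiling.cluster [Fintype ι] (h : Tiling D P) {al a : ℝ} (hal : 0 ≤ al) (ha : 0 < a)
    (hball : ∀ i, ∀ x ∈ P i, ∀ y ∈ P i, dist x y ≤ al) {bad : Set ι}
    (hgood : ∀ i, i ∉ bad → a ≤ (volume (P i)).toReal) {N : ℕ} (hN : 4 * (1 + al) ^ 2 / a ≤ N)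
    {l : ℝ} (hl : 0 ≤ l) (hlN : (2 * (N : ℝ) ^ 2 + 1) * l ≤ 1) {Zv : Set V}
    (hZv : ∀ v ∈ Wv P, v ∉ Zv → ∀ i, v ∈ P i → i ∉ bad) {v : V} (hv : v ∈ Wv P) :
    (∃ z ∈ Zv, (nearG P l).Reachable v z ∧ dist v z ≤ 1) ∨
      ∀ w, (nearG P l).Reachable v w → w ∈ Wv P ∧ w ∉ Zv ∧ dist v w ≤ 1 := by
  classical
  by_cases hi : ∃ z ∈ Zv, (nearG P l).Reachable v z ∧ dist v z ≤ 1
  · exact Or.inl hi
  right
  push Not at hi
  have hmul : ∀ k : ℕ, k ≤ 2 * N ^ 2 → (k : ℝ) * l ≤ 1 := by
    intro k hk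
    have h1 : (k : ℝ) ≤ 2 * (N : ℝ) ^ 2 + 1 := by
      have : ((k : ℕ) : ℝ) ≤ ((2 * N ^ 2 : ℕ) : ℝ) := by exact_mod_cast hk
      push_cast at this
      linarith
    exact (mul_le_mul_of_nonneg_right h1 hl).trans hlN
  intro w hw
  obtain ⟨q⟩ := hw
  have hpath : (q.toPath : (nearG P l).Walk v w).IsPath := q.toPath.2
  set p : (nearG P l).Walk v w := (q.toPath : (nearG P l).Walk v w) with hp
  have hlen : p.length ≤ 2 * N ^ 2 := by
    by_contra hcon
    push Not at hcon
    have hinj : Set.InjOn p.getVert {i | i ≤ p.length} := hpath.getVert_injOn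
    set A : Finset V := (Finset.range (2 * N ^ 2 + 1)).image p.getVert with hA
    have hcardA : A.card = 2 * N ^ 2 + 1 := by
      rw [hA, Finset.card_image_of_injOn, Finset.card_range]
      intro a ha b hb hab
      rw [Finset.mem_coe, Finset.mem_range] at ha hb
      exact hinj (by simp only [Set.mem_ofPred_eq]; omega) (by simp only [Set.mem_ofPred_eq]; omega) hab
    have hAle := h.ball_count hal ha hball hgood hN v A (by
      intro y hy
      rw [hA, Finset.mem_image] at hy
      obtain ⟨k, hk, rfl⟩ := hy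
      rw [Finset.mem_range] at hk
      obtain ⟨h1, h2⟩ := nearG_walk hv p k (by omega)
      have h3 := hmul k (by omega)
      refine ⟨h1, by rw [dist_comm]; linarith, hZv _ h1 fun hz => ?_⟩
      have h4 := hi _ hz (p.take k).reachable
      linarith)
    omega
  obtain ⟨h1, h2⟩ := nearG_walk hv p p.length le_rfl
  rw [SimpleGraph.Walk.getVert_length] at h1 h2
  have h3 := h2.trans (hmul _ hlen)
  refine ⟨h1, fun hz => ?_, h3⟩
  have h4 := hi w hz p.reachable
  linarith

/-- Distance to a finite set of points, with the value `c` if the set is empty. -/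
noncomputable def dZ (Z : Finset V) (c : ℝ) (v : V) : ℝ :=
  if Z.Nonempty then Metric.infDist v (Z : Set V) else c

theorem dZ_lip (Z : Finset V) (c : ℝ) (v w : V) : dZ Z c v ≤ dZ Z c w + dist v w := by
  unfold dZ
  split_ifs
  · exact Metric.infDist_le_infDist_add_dist
  · have := dist_nonneg (x := v) (y := w)
    linarith

/-- The rough cut-off. -/
noncomputable def f0 (Zv : Set V) (Z : Finset V) (al k0 : ℝ) (v : V) : ℝ :=
  open Classical in if v ∈ Zv then 0 else min 1 (max 1 (dZ Z (al + k0) v - al) / k0)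

theorem f0_nonneg (Zv : Set V) (Z : Finset V) (al : ℝ) {k0 : ℝ} (hk0 : 0 < k0) (v : V) :
    0 ≤ f0 Zv Z al k0 v := by
  unfold f0
  split_ifs
  · exact le_rfl
  · refine le_min zero_le_one (div_nonneg ?_ hk0.le)
    exact zero_le_one.trans (le_max_left _ _)

theorem f0_le_one (Zv : Set V) (Z : Finset V) (al k0 : ℝ) (v : V) : f0 Zv Z al k0 v ≤ 1 := by
  unfold f0
  split_ifs
  · exact zero_le_one
  · exact min_le_left _ _

theorem f0_pos (Zv : Set V) (Z : Finset V) (al : ℝ) {k0 : ℝ} (hk0 : 1 ≤ k0) {v : V} (hv : v ∉ Zv) :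
    1 / k0 ≤ f0 Zv Z al k0 v := by
  have hk0p : 0 < k0 := by linarith
  unfold f0
  rw [if_neg hv]
  refine le_min ?_ ?_
  · rw [div_le_one hk0p]
    exact hk0
  · gcongr
    exact le_max_left _ _

theorem f0_lip {Zv : Set V} {Z : Finset V} {al k0 : ℝ} (hk0 : 0 < k0)
    (hZ : ∀ z ∈ Zv, dZ Z (al + k0) z ≤ al) (v w : V) :
    f0 Zv Z al k0 v ≤ f0 Zv Z al k0 w + (dist v w + 1) / k0 := by
  have hd : 0 ≤ dist v w := dist_nonneg
  have hd1 : 0 ≤ (dist v w + 1) / k0 := by positivity
  have h1 := dZ_lip Z (al + k0) v w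
  by_cases hv : v ∈ Zv
  · have h2 : f0 Zv Z al k0 v = 0 := by
      unfold f0
      rw [if_pos hv]
    rw [h2]
    have := f0_nonneg Zv Z al hk0 w
    linarith
  by_cases hw : w ∈ Zv
  · have h2 : f0 Zv Z al k0 w = 0 := by
      unfold f0
      rw [if_pos hw]
    have h3 : f0 Zv Z al k0 v ≤ max 1 (dZ Z (al + k0) v - al) / k0 := by
      unfold f0
      rw [if_neg hv]
      exact min_le_right _ _
    have h4 : max 1 (dZ Z (al + k0) v - al) / k0 ≤ (dist v w + 1) / k0 := by
      gcongr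
      refine max_le (by linarith) ?_
      have := hZ w hw
      linarith
    rw [h2]
    linarith
  · unfold f0
    rw [if_neg hv, if_neg hw]
    have h2 : max 1 (dZ Z (al + k0) v - al) / k0 ≤
        max 1 (dZ Z (al + k0) w - al) / k0 + (dist v w + 1) / k0 := by
      rw [← add_div]
      gcongr
      refine max_le ?_ ?_
      · have := le_max_left 1 (dZ Z (al + k0) w - al)
        linarith
      · have := le_max_right 1 (dZ Z (al + k0) w - al)
        linarith
    rcases le_total 1 (max 1 (dZ Z (al + k0) w - al) / k0) with h5 | h5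
    · rw [min_eq_left h5]
      have := min_le_left 1 (max 1 (dZ Z (al + k0) v - al) / k0)
      linarith
    · rw [min_eq_right h5]
      exact (min_le_right _ _).trans h2

/-- A cell has boundedly many vertices at which only good cells meet. -/
theorem Tiling.few_good_vertices [Fintype ι] (h : Tiling D P) {al a : ℝ} (hal : 0 ≤ al)
    (ha : 0 < a) (hball : ∀ i, ∀ x ∈ P i, ∀ y ∈ P i, dist x y ≤ al) {bad : Set ι}
    (hgood : ∀ i, i ∉ bad → a ≤ (volume (P i)).toReal) {N : ℕ}
    (hN : 4 * (2 * al) ^ 2 / a ≤ N) (i : ι) (A : Finset V)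
    (hA : ∀ v ∈ A, v ∈ Wv P ∧ v ∈ P i ∧ ∀ j, v ∈ P j → j ∉ bad) : A.card ≤ 2 * N := by
  classical
  rcases A.eq_empty_or_nonempty with hAe | ⟨x0, hx0⟩
  · rw [hAe]
    simp
  have hx0i := (hA x0 hx0).2.1
  set J : Finset ι := Finset.univ.filter fun j => j ∉ bad ∧ ∃ v ∈ P i, v ∈ P j with hJ
  have hJc : J.card ≤ N := by
    have h1 := h.packing x0 (r := 2 * al) (by linarith) J (by
      intro j hj y hy
      rw [hJ, Finset.mem_filter] at hj
      obtain ⟨-, -, v, hvi, hvj⟩ := hj
      have h2 := hball j y hy v hvj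
      have h3 := hball i v hvi x0 hx0i
      have h4 := dist_triangle y v x0
      rw [Metric.mem_closedBall]
      linarith) (fun j hj => by
        rw [hJ, Finset.mem_filter] at hj
        exact hgood j hj.2.1)
    have h2 : (J.card : ℝ) ≤ N := by
      refine le_trans ?_ hN
      rw [le_div_iff₀ ha]
      linarith
    exact_mod_cast h2
  set F : ι → Finset V := fun j => if i = j then ∅ else
    (h.union_finite.toFinset).filter fun v => v ∈ P i ∧ v ∈ P j with hF
  have hsub : A ⊆ J.biUnion F := by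
    intro v hv
    obtain ⟨hvW, hvi, hvg⟩ := hA v hv
    obtain ⟨k, hk⟩ := mem_iUnion.mp hvW
    obtain ⟨k', hkk, hk'⟩ := hk.2
    obtain ⟨j, hji, hj⟩ : ∃ j, j ≠ i ∧ v ∈ P j := by
      by_cases h0 : k = i
      · exact ⟨k', fun h1 => hkk (h1.trans h0.symm), hk'⟩
      · exact ⟨k, h0, hk.1.1⟩
    rw [Finset.mem_biUnion]
    refine ⟨j, ?_, ?_⟩
    · rw [hJ, Finset.mem_filter]
      exact ⟨Finset.mem_univ _, hvg j hj, v, hvi, hj⟩
    · rw [hF]
      simp only
      rw [if_neg (Ne.symm hji), Finset.mem_filter, Set.Finite.mem_toFinset]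
      exact ⟨hvW, hvi, hj⟩
  have hcard : (J.biUnion F).card ≤ J.card * 2 := by
    refine Finset.card_biUnion_le_card_mul _ _ _ fun j _ => ?_
    rw [hF]
    simp only
    split_ifs with hp
    · simp
    · have h2 := h.two_shared hp
      have e : ({v | v ∈ Wv P ∧ v ∈ P i ∧ v ∈ P j} : Set V) =
          ((h.union_finite.toFinset).filter fun v => v ∈ P i ∧ v ∈ P j : Finset V) := by
        ext v
        simp [Wv]
      rw [e, Set.ncard_coe_finset] at h2
      exact h2
  have h3 := (Finset.card_le_card hsub).trans hcard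
  omega

/-- **Clusters and the cut-off function.** -/
theorem cluster_cutoff (al a : ℝ) (hal : 0 < al) (ha : 0 < a) :
    ∃ l0 : ℝ, 0 < l0 ∧ ∃ N0 : ℕ, ∃ C : ℝ, 0 < C ∧
    ∀ {ι : Type} [Finite ι] {D : Set V} {P : ι → Set V}, Tiling D P →
      (∀ i, ∀ x ∈ P i, ∀ y ∈ P i, dist x y ≤ al) →
    ∃ c : V → V, (∀ v ∈ Wv P, ∀ w ∈ Wv P, dist v w < l0 → c v = c w) ∧
      ∀ bad : Set ι, (∀ i, i ∉ bad → a ≤ (volume (P i)).toReal) → ∀ sp : Set V, sp.Finite →
      ∀ k0 : ℝ, 1 ≤ k0 →
    ∃ f : V → ℝ, (∀ v, 0 ≤ f v ∧ f v ≤ 1) ∧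
      (∀ v ∈ Wv P, ∀ i ∈ bad, v ∈ P i → f v = 0) ∧
      (∀ v ∈ Wv P, v ∈ sp → f v = 0) ∧
      (∀ v ∈ Wv P, ∀ w ∈ Wv P, c v = c w → f v = f w) ∧
      (∀ i, ∀ v ∈ Wv P, ∀ w ∈ Wv P, v ∈ P i → w ∈ P i → |f v - f w| ≤ C / k0) ∧
      (({i | i ∉ bad ∧ ∃ v ∈ Wv P, v ∈ P i ∧ f v < 1} : Set ι).ncard : ℝ) ≤
        C * k0 ^ 2 * (bad.ncard + sp.ncard) ∧
      (∀ v ∈ Wv P, 0 < f v →
        ({i | ∃ w ∈ Wv P, w ∈ P i ∧ c w = c v} : Set ι).ncard ≤ N0 ∧
        (∀ i, ∀ w ∈ Wv P, w ∈ P i → c w = c v → i ∉ bad) ∧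
        ({w | w ∈ Wv P ∧ c w = c v} : Set V).ncard ≤ N0 ∧
        ∀ w ∈ Wv P, c w = c v → dist v w ≤ 1) ∧
      (∀ i, ({v | v ∈ Wv P ∧ v ∈ P i ∧ 0 < f v} : Set V).ncard ≤ N0) ∧
      (∀ v ∈ Wv P, f v = 0 → ∃ w ∈ Wv P, c w = c v ∧ (w ∈ sp ∨ ∃ i ∈ bad, w ∈ P i)) := by
  classical
  obtain ⟨N, hN⟩ := exists_nat_ge (4 * (1 + al) ^ 2 / a)
  obtain ⟨N2, hN2⟩ := exists_nat_ge (4 * (2 * al) ^ 2 / a)
  have hNp : (0 : ℝ) < 2 * (N : ℝ) ^ 2 + 1 := by positivity
  set C : ℝ := 4 * (2 * al + 4) ^ 2 * (1 / a + 1) with hC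
  refine ⟨1 / (2 * (N : ℝ) ^ 2 + 1), by positivity, N + 2 * N ^ 2 + 2 * N2, C, by positivity, ?_⟩
  intro ι hι D P h hball
  have : Fintype ι := Fintype.ofFinite ι
  set l : ℝ := 1 / (2 * (N : ℝ) ^ 2 + 1) with hl
  have hl0 : 0 ≤ l := by positivity
  have hlN : (2 * (N : ℝ) ^ 2 + 1) * l ≤ 1 := by rw [hl, mul_one_div_cancel hNp.ne']
  -- the cluster map
  set c : V → V := fun v => Quot.out ((nearG P l).connectedComponentMk v) with hc
  have hc_iff : ∀ v w, c v = c w ↔ (nearG P l).Reachable v w := by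
    intro v w
    constructor
    · intro hvw
      have h1 : (nearG P l).connectedComponentMk v = (nearG P l).connectedComponentMk w := by
        have e1 : (nearG P l).connectedComponentMk (c v) = (nearG P l).connectedComponentMk v :=
          Quot.out_eq _
        have e2 : (nearG P l).connectedComponentMk (c w) = (nearG P l).connectedComponentMk w :=
          Quot.out_eq _
        rw [← e1, ← e2, hvw]
      exact SimpleGraph.ConnectedComponent.exact h1
    · intro hvw
      have h1 : (nearG P l).connectedComponentMk v = (nearG P l).connectedComponentMk w :=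
        SimpleGraph.ConnectedComponent.sound hvw
      simp only [hc]
      rw [h1]
  refine ⟨c, ?_, ?_⟩
  · intro v hv w hw hvw
    rw [hc_iff]
    by_cases hvw' : v = w
    · rw [hvw']
    · exact SimpleGraph.Adj.reachable ⟨hvw', hv, hw, hvw⟩
  intro bad hgood sp hsp k0 hk0
  have hk0p : 0 < k0 := by linarith
  -- centres
  choose pt hpt using h.int
  have hptP : ∀ i, pt i ∈ P i := fun i => interior_subset (hpt i)
  set Z : Finset V := (Finset.univ.filter fun i => i ∈ bad).image pt ∪ hsp.toFinset with hZdef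
  have hZ : ∀ i, i ∈ bad → ∃ z ∈ Z, z ∈ P i := by
    intro i hi
    refine ⟨pt i, ?_, hptP i⟩
    rw [hZdef, Finset.mem_union, Finset.mem_image]
    exact Or.inl ⟨i, by rw [Finset.mem_filter]; exact ⟨Finset.mem_univ _, hi⟩, rfl⟩
  have hspZ : ∀ v ∈ sp, v ∈ Z := by
    intro v hv
    rw [hZdef, Finset.mem_union, Set.Finite.mem_toFinset]
    exact Or.inr hv
  have hZcard : (Z.card : ℝ) ≤ bad.ncard + sp.ncard := by
    have e : bad.ncard = (Finset.univ.filter fun i => i ∈ bad).card := by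
      rw [← Set.ncard_coe_finset]
      congr 1
      ext i
      simp
    have h1 : Z.card ≤ bad.ncard + sp.ncard := by
      rw [e, Set.ncard_eq_toFinset_card _ hsp]
      exact (Finset.card_union_le _ _).trans (Nat.add_le_add_right Finset.card_image_le _)
    exact_mod_cast h1
  set Zv : Set V := {v | v ∈ sp ∨ ∃ i, i ∈ bad ∧ v ∈ P i} with hZv
  have hZv' : ∀ v ∈ Wv P, v ∉ Zv → ∀ i, v ∈ P i → i ∉ bad := by
    intro v _ hv i hi hcon
    exact hv (Or.inr ⟨i, hcon, hi⟩)
  have hdZ : ∀ v ∈ Zv, dZ Z (al + k0) v ≤ al := by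
    intro v hv
    rcases hv with hv | ⟨i, hi, hvi⟩
    · have hne : Z.Nonempty := ⟨v, hspZ v hv⟩
      unfold dZ
      rw [if_pos hne, Metric.infDist_zero_of_mem (by exact_mod_cast hspZ v hv)]
      exact hal.le
    · obtain ⟨z, hz, hzi⟩ := hZ i hi
      have hne : Z.Nonempty := ⟨z, hz⟩
      unfold dZ
      rw [if_pos hne]
      exact (Metric.infDist_le_dist_of_mem (by exact_mod_cast hz)).trans (hball i v hvi z hzi)
  have hf0Z : ∀ v ∈ Zv, f0 Zv Z al k0 v = 0 := by
    intro v hv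
    unfold f0
    rw [if_pos hv]
  set f : V → ℝ := fun v => sInf (f0 Zv Z al k0 '' {w | (nearG P l).Reachable v w}) with hf
  have hbdd : ∀ v, BddBelow (f0 Zv Z al k0 '' {w | (nearG P l).Reachable v w}) := fun v =>
    ⟨0, by rintro _ ⟨w, -, rfl⟩; exact f0_nonneg _ _ _ hk0p _⟩
  have hne : ∀ v, (f0 Zv Z al k0 '' {w | (nearG P l).Reachable v w}).Nonempty := fun v =>
    ⟨_, v, SimpleGraph.Reachable.refl v, rfl⟩
  have hf_le : ∀ v w, (nearG P l).Reachable v w → f v ≤ f0 Zv Z al k0 w := fun v w hw =>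
    csInf_le (hbdd v) ⟨w, hw, rfl⟩
  have hf_nonneg : ∀ v, 0 ≤ f v := fun v =>
    le_csInf (hne v) (by rintro _ ⟨w, -, rfl⟩; exact f0_nonneg _ _ _ hk0p _)
  have hf_const : ∀ v w, (nearG P l).Reachable v w → f v = f w := by
    intro v w hvw
    have e : ({u | (nearG P l).Reachable v u} : Set V) = {u | (nearG P l).Reachable w u} := by
      ext u
      exact ⟨fun hu => hvw.symm.trans hu, fun hu => hvw.trans hu⟩
    simp only [hf]
    rw [e]
  have hcl : ∀ v ∈ Wv P, (∃ z ∈ Zv, (nearG P l).Reachable v z ∧ dist v z ≤ 1) ∨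
      ∀ w, (nearG P l).Reachable v w → w ∈ Wv P ∧ w ∉ Zv ∧ dist v w ≤ 1 := fun v hv =>
    h.cluster hal.le ha hball hgood hN hl0 hlN hZv' hv
  have hf_Z : ∀ v z, z ∈ Zv → (nearG P l).Reachable v z → f v = 0 := by
    intro v z hz hvz
    refine le_antisymm ?_ (hf_nonneg v)
    rw [← hf0Z z hz]
    exact hf_le v z hvz
  have hf_ge : ∀ v ∈ Wv P, f0 Zv Z al k0 v ≤ f v + 2 / k0 := by
    intro v hv
    rcases hcl v hv with ⟨z, hz, hvz, hd⟩ | hall
    · rw [hf_Z v z hz hvz]
      have h1 := f0_lip hk0p hdZ v z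
      rw [hf0Z z hz] at h1
      have h2 : (dist v z + 1) / k0 ≤ 2 / k0 := by
        gcongr
        linarith
      linarith
    · have h1 : f0 Zv Z al k0 v - 2 / k0 ≤ f v := by
        refine le_csInf (hne v) ?_
        rintro _ ⟨w, hw, rfl⟩
        have h2 := f0_lip hk0p hdZ v w
        have h3 : (dist v w + 1) / k0 ≤ 2 / k0 := by
          gcongr
          linarith [(hall w hw).2.2]
        linarith
      linarith
  have hf_le' : ∀ v, f v ≤ f0 Zv Z al k0 v := fun v => hf_le v v (SimpleGraph.Reachable.refl v)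
  have hf_bad : ∀ v ∈ Wv P, 0 < f v → ∀ i, v ∈ P i → i ∉ bad := by
    intro v _ hfv i hvi hi
    have := hf_Z v v (Or.inr ⟨i, hi, hvi⟩) (SimpleGraph.Reachable.refl v)
    linarith
  refine ⟨f, fun v => ⟨hf_nonneg v, (hf_le' v).trans (f0_le_one _ _ _ _ _)⟩, ?_, ?_, ?_, ?_, ?_,
    ?_, ?_, ?_⟩
  · intro v _ i hi hvi
    exact hf_Z v v (Or.inr ⟨i, hi, hvi⟩) (SimpleGraph.Reachable.refl v)
  · intro v _ hvs
    exact hf_Z v v (Or.inl hvs) (SimpleGraph.Reachable.refl v)
  · intro v _ w _ hvw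
    exact hf_const v w ((hc_iff v w).1 hvw)
  · intro i v hv w hw hvi hwi
    have key : ∀ x y : V, x ∈ Wv P → y ∈ Wv P → x ∈ P i → y ∈ P i → f x - f y ≤ C / k0 := by
      intro x y _ hy hxi hyi
      have h1 := hf_le' x
      have h2 := f0_lip hk0p hdZ x y
      have h3 := hf_ge y hy
      have h4 : (dist x y + 1) / k0 ≤ (al + 1) / k0 := by
        gcongr
        exact hball i x hxi y hyi
      have h5 : (al + 1 + 2) / k0 ≤ C / k0 := by
        gcongr
        have h6 : 0 < 1 / a := by positivity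
        rw [hC]
        nlinarith [mul_pos hal hal, mul_pos h6 hal, mul_pos (mul_pos h6 hal) hal]
      rw [add_div] at h5
      linarith
    rw [abs_le]
    have h1 := key v w hv hw hvi hwi
    have h2 := key w v hw hv hwi hvi
    constructor <;> linarith
  · set A : Set ι := {i | i ∉ bad ∧ ∃ v ∈ Wv P, v ∈ P i ∧ f v < 1} with hA
    set r : ℝ := k0 + 2 * al + 3 with hr
    have hrp : 0 ≤ r := by positivity
    have hcov : ∀ i ∈ A, ∃ z ∈ Z, P i ⊆ Metric.closedBall z r := by
      rintro i ⟨-, v, hv, hvi, hlt⟩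
      obtain ⟨w, hw1, hw2⟩ : ∃ w, dist v w ≤ 1 ∧ f0 Zv Z al k0 w < 1 := by
        rcases hcl v hv with ⟨z, hz, hvz, hd⟩ | hall
        · exact ⟨z, hd, by rw [hf0Z z hz]; exact zero_lt_one⟩
        · obtain ⟨_, ⟨w, hw, rfl⟩, hlt'⟩ := exists_lt_of_csInf_lt (hne v) hlt
          exact ⟨w, (hall w hw).2.2, hlt'⟩
      have hw3 : dZ Z (al + k0) w < al + k0 := by
        by_cases hwZ : w ∈ Zv
        · have := hdZ w hwZ
          linarith
        by_contra hcon
        push Not at hcon
        have h1 : 1 ≤ max 1 (dZ Z (al + k0) w - al) / k0 := by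
          rw [le_div_iff₀ hk0p]
          have := le_max_right 1 (dZ Z (al + k0) w - al)
          linarith
        have h2 : f0 Zv Z al k0 w = 1 := by
          unfold f0
          rw [if_neg hwZ]
          exact min_eq_left h1
        linarith
      have hZne : Z.Nonempty := by
        by_contra hcon
        unfold dZ at hw3
        rw [if_neg hcon] at hw3
        exact lt_irrefl _ hw3
      unfold dZ at hw3
      rw [if_pos hZne] at hw3
      obtain ⟨z, hz, hzd⟩ := (Metric.infDist_lt_iff (by exact_mod_cast hZne)).mp hw3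
      refine ⟨z, by exact_mod_cast hz, fun y hy => ?_⟩
      rw [Metric.mem_closedBall]
      have h1 := hball i y hy v hvi
      have h2 := dist_triangle y v z
      have h3 := dist_triangle v w z
      linarith
    set A' : Finset ι := Finset.univ.filter fun i => i ∈ A with hA'
    have hAc : A.ncard = A'.card := by
      rw [← Set.ncard_coe_finset]
      congr 1
      ext i
      simp [hA']
    have hsub : A' ⊆ Z.biUnion fun z => A'.filter fun i => P i ⊆ Metric.closedBall z r := by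
      intro i hi
      have hiA : i ∈ A := by
        rw [hA', Finset.mem_filter] at hi
        exact hi.2
      obtain ⟨z, hz, hzi⟩ := hcov i hiA
      rw [Finset.mem_biUnion]
      exact ⟨z, hz, by rw [Finset.mem_filter]; exact ⟨hi, hzi⟩⟩
    have h1 : (A'.card : ℝ) ≤ ∑ z ∈ Z, ((A'.filter fun i => P i ⊆ Metric.closedBall z r).card : ℝ) := by
      have := (Finset.card_le_card hsub).trans Finset.card_biUnion_le
      exact_mod_cast this
    have h2 : ∀ z ∈ Z, ((A'.filter fun i => P i ⊆ Metric.closedBall z r).card : ℝ) ≤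
        C * k0 ^ 2 := by
      intro z _
      have h3 := h.packing z hrp (A'.filter fun i => P i ⊆ Metric.closedBall z r)
        (fun i hi => (Finset.mem_filter.mp hi).2) (fun i hi => by
          have := (Finset.mem_filter.mp hi).1
          rw [hA', Finset.mem_filter] at this
          exact hgood i this.2.1)
      have h4 : r ≤ (2 * al + 4) * k0 := by
        rw [hr]
        nlinarith
      have h5 : r ^ 2 ≤ ((2 * al + 4) * k0) ^ 2 := pow_le_pow_left₀ hrp h4 2
      have h6 : ((A'.filter fun i => P i ⊆ Metric.closedBall z r).card : ℝ) ≤ 4 * r ^ 2 / a := by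
        rw [le_div_iff₀ ha]
        linarith
      have h7 : 4 * r ^ 2 / a ≤ 4 * ((2 * al + 4) * k0) ^ 2 / a := by gcongr
      have h8 : 4 * ((2 * al + 4) * k0) ^ 2 / a = 4 * (2 * al + 4) ^ 2 * (1 / a) * k0 ^ 2 := by
        ring
      have h9 : 4 * (2 * al + 4) ^ 2 * (1 / a) * k0 ^ 2 ≤ C * k0 ^ 2 := by
        rw [hC]
        have : 0 ≤ 4 * (2 * al + 4) ^ 2 * k0 ^ 2 := by positivity
        nlinarith
      linarith
    rw [hAc]
    calc (A'.card : ℝ) ≤ ∑ z ∈ Z, C * k0 ^ 2 := h1.trans (Finset.sum_le_sum h2)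
      _ = C * k0 ^ 2 * Z.card := by
        rw [Finset.sum_const, nsmul_eq_mul]
        ring
      _ ≤ C * k0 ^ 2 * (bad.ncard + sp.ncard) :=
        mul_le_mul_of_nonneg_left hZcard (by positivity)
  · intro v hv hfv
    have hall : ∀ w, (nearG P l).Reachable v w → w ∈ Wv P ∧ w ∉ Zv ∧ dist v w ≤ 1 := by
      rcases hcl v hv with ⟨z, hz, hvz, -⟩ | hall
      · exact absurd (hf_Z v z hz hvz) hfv.ne'
      · exact hall
    have hre : ∀ w, c w = c v → (nearG P l).Reachable v w := fun w hw =>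
      ((hc_iff w v).1 hw).symm
    have hgv : ∀ w, (nearG P l).Reachable v w → ∀ i, w ∈ P i → i ∉ bad := fun w hw =>
      hZv' w (hall w hw).1 (hall w hw).2.1
    refine ⟨?_, fun i w _ hwi hw => hgv w (hre w hw) i hwi, ?_, fun w _ hw => (hall w (hre w hw)).2.2⟩
    · have e : ({i | ∃ w ∈ Wv P, w ∈ P i ∧ c w = c v} : Set ι) =
          (Finset.univ.filter fun i => ∃ w ∈ Wv P, w ∈ P i ∧ c w = c v : Finset ι) := by
        ext i
        simp
      rw [e, Set.ncard_coe_finset]
      have hcc : (Finset.univ.filter fun i => ∃ w ∈ Wv P, w ∈ P i ∧ c w = c v : Finset ι).card ≤ N :=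
        h.cells_count hal.le ha hball hgood hN v _ fun i hi => by
          rw [Finset.mem_filter] at hi
          obtain ⟨-, w, hw, hwi, hwc⟩ := hi
          exact ⟨hgv w (hre w hwc) i hwi, w, hwi, by
            rw [dist_comm]; exact (hall w (hre w hwc)).2.2⟩
      omega
    · have hfin : ({w | w ∈ Wv P ∧ c w = c v} : Set V).Finite :=
        h.union_finite.subset fun w hw => hw.1
      rw [Set.ncard_eq_toFinset_card _ hfin]
      have hcc : hfin.toFinset.card ≤ 2 * N ^ 2 :=
        h.ball_count hal.le ha hball hgood hN v _ fun w hw => by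
          rw [Set.Finite.mem_toFinset] at hw
          exact ⟨(hall w (hre w hw.2)).1, by rw [dist_comm]; exact (hall w (hre w hw.2)).2.2,
            hgv w (hre w hw.2)⟩
      omega
  · intro i
    have hfin : ({v | v ∈ Wv P ∧ v ∈ P i ∧ 0 < f v} : Set V).Finite :=
      h.union_finite.subset fun w hw => hw.1
    rw [Set.ncard_eq_toFinset_card _ hfin]
    have hcc : hfin.toFinset.card ≤ 2 * N2 :=
      h.few_good_vertices hal.le ha hball hgood hN2 i _ fun v hv => by
        rw [Set.Finite.mem_toFinset] at hv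
        exact ⟨hv.1, hv.2.1, hf_bad v hv.1 hv.2.2⟩
    omega
  · intro v hv hfv
    by_contra hcon
    push Not at hcon
    have hall : ∀ w, (nearG P l).Reachable v w → w ∉ Zv := by
      rcases hcl v hv with ⟨z, hz, hvz, -⟩ | hall
      · exfalso
        obtain ⟨q⟩ := hvz
        have hzW : z ∈ Wv P := by
          have := (nearG_walk hv q q.length le_rfl).1
          rw [SimpleGraph.Walk.getVert_length] at this
          exact this
        have h1 := hcon z hzW ((hc_iff z v).2 q.reachable.symm)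
        rcases hz with hz | ⟨i, hi, hzi⟩
        · exact h1.1 hz
        · exact h1.2 i hi hzi
      · exact fun w hw => (hall w hw).2.1
    have h1 : 1 / k0 ≤ f v := by
      refine le_csInf (hne v) ?_
      rintro _ ⟨w, hw, rfl⟩
      exact f0_pos Zv Z al hk0 (hall w hw)
    have h2 : 0 < 1 / k0 := by positivity
    linarith

end W82
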