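import Pool.Agent.W_c2305b_h74.Order

/-! MP_c2305b_co, row 552, module G1: near symmetry of near-maximal sextuples (compactness). -/

namespace C2305b.Rig

open O74

noncomputable section

/-- every maximal sextuple of `K0` is symmetric about `0` -/
def Sym6 (K0 : Set Pl) (t6 : ℝ) : Prop :=
  ∀ q : Fin 6 → Pl, Conv6 q → (∀ k, q k ∈ K0) → ar6 q = t6 → ∀ k, q (k + 3) = - q k

namespace N72

lemma continuous_cr {X : Type*} [TopologicalSpace X] {f g : X → Pl} (hf : Continuous f)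
    (hg : Continuous g) : Continuous fun x => cr (f x) (g x) := by
  unfold cr
  have c : ∀ i : Fin 2, Continuous fun v : Pl => v i := fun i => by fun_prop
  exact (((c 0).comp hf).mul ((c 1).comp hg)).sub (((c 1).comp hf).mul ((c 0).comp hg))

lemma continuous_ar6 : Continuous ar6 := by
  unfold ar6
  refine (continuous_finsetSum _ fun k _ => ?_).div_const _
  exact continuous_cr (continuous_apply _) (continuous_apply _)

lemma isClosed_conv6 : IsClosed {q : Fin 6 → Pl | Conv6 q} := by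
  unfold Conv6
  simp only [Set.ofPred_forall]
  refine isClosed_iInter fun i => isClosed_iInter fun j => isClosed_iInter fun k =>
    isClosed_iInter fun _ => isClosed_iInter fun _ => ?_
  exact isClosed_le continuous_const (continuous_cr ((continuous_apply _).sub (continuous_apply _))
    ((continuous_apply _).sub (continuous_apply _)))

/-- near-maximal sextuples in `K0` are nearly symmetric -/
theorem near_sym0 {K0 : Set Pl} {t6 : ℝ} (hK : IsCompact K0) (hle : LeMax K0 t6)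
    (hs : Sym6 K0 t6) {δ : ℝ} (hδ : 0 < δ) :
    ∃ η : ℝ, 0 < η ∧ ∀ q : Fin 6 → Pl, Conv6 q → (∀ k, q k ∈ K0) → t6 - η ≤ ar6 q →
      ∀ k, ‖q (k + 3) + q k‖ ≤ δ := by
  classical
  set C : Set (Fin 6 → Pl) := {q | Conv6 q} ∩ (Set.univ.pi fun _ => K0) ∩
    (⋃ k : Fin 6, {q | δ ≤ ‖q (k + 3) + q k‖}) with hC
  have hCc : IsCompact C := by
    refine IsCompact.inter_right ?_ ?_
    · exact (isCompact_univ_pi fun _ => hK).inter_left isClosed_conv6
    · refine isClosed_iUnion_of_finite fun k => ?_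
      have h3 : Continuous fun q : Fin 6 → Pl => q (k + 3) + q k :=
        (continuous_apply (k + 3)).add (continuous_apply k)
      exact isClosed_le continuous_const h3.norm
  by_cases hne : C.Nonempty
  · obtain ⟨m, hm, hmax⟩ := hCc.exists_isMaxOn hne continuous_ar6.continuousOn
    have hlt : ar6 m < t6 := by
      refine lt_of_le_of_ne (hle m hm.1.1 fun k => hm.1.2 k (Set.mem_univ _)) fun h => ?_
      obtain ⟨k, hk⟩ := Set.mem_iUnion.1 hm.2
      have := hs m hm.1.1 (fun k => hm.1.2 k (Set.mem_univ _)) h k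
      rw [Set.mem_ofPred_eq, this] at hk
      simp at hk
      linarith
    refine ⟨(t6 - ar6 m) / 2, by linarith, fun q hq hqK hqa k => ?_⟩
    by_contra hcon
    have hqC : q ∈ C := ⟨⟨hq, fun k _ => hqK k⟩, Set.mem_iUnion.2 ⟨k, (not_le.1 hcon).le⟩⟩
    have := hmax hqC
    simp only [Set.mem_ofPred_eq] at this
    linarith
  · refine ⟨1, one_pos, fun q hq hqK _ k => ?_⟩
    by_contra hcon
    exact hne ⟨q, ⟨hq, fun k _ => hqK k⟩, Set.mem_iUnion.2 ⟨k, (not_le.1 hcon).le⟩⟩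

lemma conv6_smul {a : ℝ} (ha : 0 ≤ a) {q : Fin 6 → Pl} (h : Conv6 q) :
    Conv6 (fun k => a • q k) := by
  intro i j k hij hjk
  have := h i j k hij hjk
  rw [← smul_sub, ← smul_sub, cr_smul_left, cr_smul_right]
  positivity

lemma ar6_smul (a : ℝ) (q : Fin 6 → Pl) : ar6 (fun k => a • q k) = a ^ 2 * ar6 q := by
  unfold ar6
  rw [← mul_div_assoc, Finset.mul_sum]
  congr 1
  refine Finset.sum_congr rfl fun k _ => ?_
  rw [cr_smul_left, cr_smul_right]; ring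

/-- the same in `(1+ε) K0` -/
theorem near_sym1 {K0 : Set Pl} {t6 : ℝ} (hK : IsCompact K0) (hle : LeMax K0 t6)
    (hs : Sym6 K0 t6) {δ : ℝ} (hδ : 0 < δ) :
    ∃ η : ℝ, 0 < η ∧ ∃ ε0 : ℝ, 0 < ε0 ∧ ∀ ε : ℝ, 0 ≤ ε → ε ≤ ε0 → ∀ q : Fin 6 → Pl, Conv6 q →
      (∀ k, (1 + ε)⁻¹ • q k ∈ K0) → t6 - η ≤ ar6 q → ∀ k, ‖q (k + 3) + q k‖ ≤ δ := by
  obtain ⟨η, hη, h⟩ := near_sym0 hK hle hs (half_pos hδ)
  refine ⟨η / 2, half_pos hη, min 1 (η / (4 * (|t6| + 1))), by positivity, ?_⟩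
  intro ε hε hε0 q hq hqK hqa k
  have hε1 : ε ≤ 1 := hε0.trans (min_le_left _ _)
  have hε2 : ε ≤ η / (4 * (|t6| + 1)) := hε0.trans (min_le_right _ _)
  have hp : 0 < 1 + ε := by linarith
  have hcv : Conv6 (fun k => (1 + ε)⁻¹ • q k) := conv6_smul (by positivity) hq
  have har : ar6 (fun k => (1 + ε)⁻¹ • q k) = ((1 + ε)⁻¹) ^ 2 * ar6 q := ar6_smul _ _
  have hinv : ((1 + ε)⁻¹) ^ 2 ≤ 1 := by
    have : (1 + ε)⁻¹ ≤ 1 := inv_le_one_of_one_le₀ (by linarith)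
    exact pow_le_one₀ (by positivity) this
  have hinv2 : 1 - 2 * ε ≤ ((1 + ε)⁻¹) ^ 2 := by
    rw [inv_pow, inv_eq_one_div, le_div_iff₀ (by positivity)]
    nlinarith [mul_nonneg hε hε, mul_nonneg (mul_nonneg hε hε) hε]
  have key : t6 - η ≤ ar6 (fun k => (1 + ε)⁻¹ • q k) := by
    rw [har]
    set c := ((1 + ε)⁻¹) ^ 2
    have hc0 : 0 ≤ c := by positivity
    have hq1 : c * (t6 - η / 2) ≤ c * ar6 q := mul_le_mul_of_nonneg_left hqa hc0
    refine le_trans ?_ hq1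
    rcases le_total 0 (t6 - η / 2) with h0 | h0
    · have h1 : (1 - 2 * ε) * (t6 - η / 2) ≤ c * (t6 - η / 2) :=
        mul_le_mul_of_nonneg_right hinv2 h0
      have h2 : ε * (4 * (|t6| + 1)) ≤ η := by
        rw [← le_div_iff₀ (by positivity)]; exact hε2
      have h3 : t6 ≤ |t6| := le_abs_self _
      have h4 : ε * t6 ≤ ε * |t6| := mul_le_mul_of_nonneg_left h3 hε
      nlinarith [mul_nonneg hε hη.le]
    · have h1 : 1 * (t6 - η / 2) ≤ c * (t6 - η / 2) :=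
        mul_le_mul_of_nonpos_right hinv h0
      linarith
  have := h _ hcv hqK key k
  rw [← smul_add, norm_smul, norm_inv, Real.norm_of_nonneg hp.le] at this
  rw [inv_mul_le_iff₀ hp] at this
  nlinarith [norm_nonneg (q (k + 3) + q k)]

lemma norm_Am1 {a b : ℝ} (hab : a ^ 2 + b ^ 2 = 1) (v : Pl) : ‖Am 1 a (-b) v‖ = ‖v‖ := by
  rw [EuclideanSpace.norm_eq, EuclideanSpace.norm_eq]
  congr 1
  simp only [Fin.sum_univ_two, Real.norm_eq_abs, sq_abs, Am]
  simp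
  have : (a * v 0 + b * v 1) ^ 2 + (-(b * v 0) + a * v 1) ^ 2 =
      (a ^ 2 + b ^ 2) * (v 0 ^ 2 + v 1 ^ 2) := by ring
  rw [this, hab, one_mul]

lemma norm_Jt (t : Bool) (v : Pl) : ‖Jt t v‖ = ‖v‖ := by
  cases t
  · simp [Jt]
  · rw [EuclideanSpace.norm_eq, EuclideanSpace.norm_eq]
    simp [Jt]

lemma Jt_add (t : Bool) (u v : Pl) : Jt t (u + v) = Jt t u + Jt t v := by
  cases t
  · simp [Jt]
  · refine pl_ext ?_ ?_ <;> simp [Jt]
    ring

/-- NEAR SYMMETRY in all local bodies `(1+ε) V K0`, `(1+ε) J V K0` -/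
theorem near_sym {K0 : Set Pl} {t6 : ℝ} (hK : IsCompact K0) (hle : LeMax K0 t6)
    (hs : Sym6 K0 t6) {δ : ℝ} (hδ : 0 < δ) :
    ∃ η : ℝ, 0 < η ∧ ∃ ε0 : ℝ, 0 < ε0 ∧ ∀ ε : ℝ, 0 ≤ ε → ε ≤ ε0 → ∀ (a b : ℝ) (t : Bool)
      (q : Fin 6 → Pl), a ^ 2 + b ^ 2 = 1 → Conv6 q →
      (∀ k, InBody K0 a b t ((1 + ε)⁻¹ • q k)) → t6 - η ≤ ar6 q →
      ∀ k, ‖q (k + 3) + q k‖ ≤ δ := by
  obtain ⟨η, hη, ε0, hε0, h⟩ := near_sym1 hK hle hs hδ
  refine ⟨η, hη, ε0, hε0, fun ε he he' a b t q hab hq hqK hqa k => ?_⟩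
  have hK' : ∀ k, (1 + ε)⁻¹ • toK a b t q k ∈ K0 := by
    intro k
    have := hqK (if t then -k else k)
    unfold InBody at this
    rw [Jt_smul, Am_smul] at this
    exact this
  have := h ε he he' (toK a b t q) (conv6_toK hab t hq) hK' (by rw [ar6_toK hab]; exact hqa)
    (if t then -k else k)
  have e : toK a b t q ((if t then -k else k) + 3) + toK a b t q (if t then -k else k) =
      Am 1 a (-b) (Jt t (q (k + 3) + q k)) := by
    unfold toK
    rw [Jt_add, Am_add]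
    cases t
    · simp
    · have h3 : -(-k + 3) = k + 3 := by
        have : ∀ k : Fin 6, -(-k + 3) = k + 3 := by decide
        exact this k
      simp [h3]
  rw [e, norm_Am1 hab, norm_Jt] at this
  exact this

/-- opposite edges of a near-maximal sextuple nearly cancel -/
theorem near_sym_edge {K0 : Set Pl} {t6 : ℝ} (hK : IsCompact K0) (hle : LeMax K0 t6)
    (hs : Sym6 K0 t6) {δ : ℝ} (hδ : 0 < δ) :
    ∃ η : ℝ, 0 < η ∧ ∃ ε0 : ℝ, 0 < ε0 ∧ ∀ ε : ℝ, 0 ≤ ε → ε ≤ ε0 → ∀ (a b : ℝ) (t : Bool)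
      (q : Fin 6 → Pl), a ^ 2 + b ^ 2 = 1 → Conv6 q →
      (∀ k, InBody K0 a b t ((1 + ε)⁻¹ • q k)) → t6 - η ≤ ar6 q →
      ∀ k, ‖(q (k + 1) - q k) + (q (k + 4) - q (k + 3))‖ ≤ δ := by
  obtain ⟨η, hη, ε0, hε0, h⟩ := near_sym hK hle hs (half_pos hδ)
  refine ⟨η, hη, ε0, hε0, fun ε he he' a b t q hab hq hqK hqa k => ?_⟩
  have h1 := h ε he he' a b t q hab hq hqK hqa k
  have h2 := h ε he he' a b t q hab hq hqK hqa (k + 1)
  have e4 : k + 1 + 3 = k + 4 := by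
    have : ∀ k : Fin 6, k + 1 + 3 = k + 4 := by decide
    exact this k
  rw [e4] at h2
  have e : (q (k + 1) - q k) + (q (k + 4) - q (k + 3)) =
      (q (k + 4) + q (k + 1)) - (q (k + 3) + q k) := by abel
  rw [e]
  exact (norm_sub_le _ _).trans (by linarith)

/-- coordinatewise form -/
theorem near_sym_coord {K0 : Set Pl} {t6 : ℝ} (hK : IsCompact K0) (hle : LeMax K0 t6)
    (hs : Sym6 K0 t6) {δ : ℝ} (hδ : 0 < δ) :
    ∃ η : ℝ, 0 < η ∧ ∃ ε0 : ℝ, 0 < ε0 ∧ ∀ ε : ℝ, 0 ≤ ε → ε ≤ ε0 → ∀ (a b : ℝ) (t : Bool)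
      (q : Fin 6 → Pl), a ^ 2 + b ^ 2 = 1 → Conv6 q →
      (∀ k, InBody K0 a b t ((1 + ε)⁻¹ • q k)) → t6 - η ≤ ar6 q →
      ∀ k, ∀ i : Fin 2, |((q (k + 1) - q k) + (q (k + 4) - q (k + 3))) i| ≤ δ := by
  obtain ⟨η, hη, ε0, hε0, h⟩ := near_sym_edge hK hle hs hδ
  refine ⟨η, hη, ε0, hε0, fun ε he he' a b t q hab hq hqK hqa k i => ?_⟩
  have h1 := PiLp.norm_apply_le ((q (k + 1) - q k) + (q (k + 4) - q (k + 3))) i
  rw [Real.norm_eq_abs] at h1
  exact h1.trans (h ε he he' a b t q hab hq hqK hqa k)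

end N72

end

end C2305b.Rig

namespace C2305bG

/-- every maximal sextuple of `K0` is symmetric about `0` -/
abbrev Sym (K0 : Set C2305b.Rig.Pl) (T6 : ℝ) : Prop := C2305b.Rig.Sym6 K0 T6

end C2305bG
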