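import Pool.Agent.W_c2305b_h72.Reg

/-!
# `Lvl` from the cells (MP_c2305b_co, row 552)
-/

namespace C2305bG

open Set MeasureTheory C2305b.TL
open C2305bB (Fr mis Fits al Blk goodSides Meets)
open C2305b.Rig (Conv6 ar6 InBody Am Pos Off Sym6 LeMax)
open W82 (Vb Tv Fv kv cap S Gap Copies Cells GoodV Perfect lossOf ux uy mkFr)
open scoped Pointwise

variable {ι : Type} {D : Set V} {P : ι → Set V}

/-- Perfect cells outside `reach 0` have good corners. -/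
theorem good_of_notMem_reach [Fintype ι] {loss : ι → ℝ} {η : ℝ} {i : ι}
    (hp : Perfect D P loss η i) {n : ℕ} (hr : i ∉ W82.reach D P loss η n) :
    ∀ v ∈ S P i, GoodV D P loss η v := by
  classical
  intro v hv
  by_contra hg
  apply hr
  apply W82.reach_mono
  rw [W82.reach, Finset.mem_filter]
  exact ⟨Finset.mem_univ _, hp, v, hv, hg⟩

/-- **Regular levels from the cells.** -/
theorem lvl_of [Finite ι] (h : W82.Tiling D P)
    (hi : (interior (convexHull ℝ (Vb D P))).Nonempty) {K K0 : Set V}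
    {T6 A6 τ g ε G η L a b R0 M ρ : ℝ} {t : ι → Bool} {c s : ι → ℝ} {o : ι → V}
    (hG : Gap K0 T6 τ g) (hK0c : Convex ℝ K0) (hG0 : volume K0 ≤ ENNReal.ofReal G)
    (hGnn : 0 ≤ G) (hε : 0 ≤ ε) (hε1 : ε ≤ 1) (hεG : 3 * ε * G ≤ g / 2)
    (hKε : K ⊆ (1 + ε) • K0) (hcop : Copies P K) (hT : T6 ≤ A6) (hη : η ≤ g / 2)
    (hηT : η ≤ T6 / 2) (hL : 1 ≤ L)
    (hC : Cells P K0 (1 / L ^ 2) ε a b 1 0 t c s o) (hK : K0 ⊆ Metric.closedBall 0 R0)
    (hab : a ^ 2 + b ^ 2 = 1) (hM : 2 * R0 ≤ M) (hM0 : 0 < M)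
    (hfr : ∀ i, c i ^ 2 + (s i / L) ^ 2 = 1)
    (hsym : ∀ (t : Bool) (q : Fin 6 → V), Conv6 q →
      (∀ k, InBody K0 a b t ((1 + ε)⁻¹ • q k)) → T6 - η ≤ ar6 q →
      ∀ k, ∀ j : Fin 2, |((q (k + 1) - q k) + (q (k + 4) - q (k + 3))) j| ≤ ρ)
    {Bad : Finset ({i : ι // (interior (convexHull ℝ (S P i))).Nonempty} ×
      {i : ι // (interior (convexHull ℝ (S P i))).Nonempty})}
    (hBad : ∀ i j v w, (h.toTL hi).Tw i j v w → (i, j) ∉ Bad →
      Perfect D P (lossOf P A6 τ) η i ∧ Perfect D P (lossOf P A6 τ) η j ∧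
      (∀ v ∈ S P i, GoodV D P (lossOf P A6 τ) η v) ∧
      (∀ v ∈ S P j, GoodV D P (lossOf P A6 τ) η v)) :
    Lvl L (64 * M ^ 2 / τ) ρ (τ ^ 2 / (1024 * M ^ 3)) (T6 / 2) (h.toTL hi)
      (fun i : {i : ι // (interior (convexHull ℝ (S P i))).Nonempty} =>
        mkFr L (c i) (s i) (hfr i)) Bad := by
  have hL0 : 0 < L := by linarith
  have hν : 0 ≤ 1 / L ^ 2 := by positivity
  have hν1 : 1 / L ^ 2 ≤ 1 := by
    rw [div_le_one (by positivity)]
    nlinarith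
  intro i j v w hTw hn
  obtain ⟨pi, pj, gi, gj⟩ := hBad i j v w hTw hn
  refine ⟨?_, ?_, ?_⟩
  · have hvi : v ∈ P i := h.hull_sub i hTw.1.1.2
    have hvj : v ∈ P j := h.hull_sub j hTw.2.2.1.2
    have hvS : v ∈ S P i := pi.only v hvi (h.mem_M.mp hTw.1.1.1)
    show mis L (mkFr L (c i) (s i) (hfr i)) (mkFr L (c j) (s j) (hfr j)) ≤ _
    rw [W82.mis_mkFr hL0]
    exact h.mis_good hi hG hK0c hG0 hGnn hε hε1 hεG hKε hcop hT hη hC hK hab hν hν1
      (so := 0) (Ro := 0) (by simp) (by linarith) hM0 (gi v hvS) hvi hvj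
  · exact regTile h hi hG hK0c hG0 hGnn hε hε1 hεG hKε hcop hT hη hηT hL hC hK hab hM hM0 hfr
      hsym pi gi
  · exact regTile h hi hG hK0c hG0 hGnn hε hε1 hεG hKε hcop hT hη hηT hL hC hK hab hM hM0 hfr
      hsym pj gj

end C2305bG
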