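import Pool.Agent.W_c2305b_h19.Frame

/-!
# The edge potential

`J a b x y = (a - b) y - (a² - b²) x / 2` is the flux jump of two field values over the dart
`(x, y)`.  With the cutoff `chi = x² / (x² + d²)` it is a difference `E b - E a` of potentials
`E a = x (y - a x)² / (2 (x² + d²))`, which are odd in the dart; so the sum over the darts of a
nearly centrally symmetric cell nearly cancels.
-/

namespace C2305bG

open C2305bB (J Fr Fits)

/-- The edge potential. -/
noncomputable def E (d a x y : ℝ) : ℝ := x * (y - a * x) ^ 2 / (2 * (x ^ 2 + d ^ 2))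

/-- The cutoff. -/
noncomputable def chi (d x : ℝ) : ℝ := x ^ 2 / (x ^ 2 + d ^ 2)

theorem den_pos {d : ℝ} (hd : 0 < d) (x : ℝ) : 0 < x ^ 2 + d ^ 2 := by positivity

theorem chi_mul_J {d : ℝ} (hd : 0 < d) (a b x y : ℝ) :
    chi d x * J a b x y = E d b x y - E d a x y := by
  have h := (den_pos hd x).ne'
  unfold chi E J
  field_simp
  ring

theorem chi_nonneg {d : ℝ} (x : ℝ) : 0 ≤ chi d x := by
  unfold chi; positivity

theorem chi_le_one {d : ℝ} (hd : 0 < d) (x : ℝ) : chi d x ≤ 1 := by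
  unfold chi
  rw [div_le_one (den_pos hd x)]
  nlinarith [sq_nonneg d]

theorem one_sub_chi {d : ℝ} (hd : 0 < d) (x : ℝ) : 1 - chi d x = d ^ 2 / (x ^ 2 + d ^ 2) := by
  have h := (den_pos hd x).ne'
  unfold chi
  field_simp
  ring

theorem one_sub_chi_le {d w x : ℝ} (hd : 0 < d) (hw : 0 < w) (hx : w ≤ |x|) :
    1 - chi d x ≤ (d / w) ^ 2 := by
  rw [one_sub_chi hd, div_pow]
  apply div_le_div_of_nonneg_left (sq_nonneg d) (by positivity)
  have h1 : w ^ 2 ≤ |x| ^ 2 := pow_le_pow_left₀ hw.le hx 2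
  rw [sq_abs] at h1
  nlinarith [sq_nonneg d]

theorem E_neg (d a x y : ℝ) : E d a (-x) (-y) = -E d a x y := by
  unfold E
  have h1 : (-y - a * -x) ^ 2 = (y - a * x) ^ 2 := by ring
  rw [h1, neg_sq, neg_mul, neg_div]

/-- The kernel `x / (x² + d²)`. -/
noncomputable def ker (d x : ℝ) : ℝ := x / (x ^ 2 + d ^ 2)

theorem E_eq (d a x y : ℝ) : E d a x y = ker d x * (y - a * x) ^ 2 / 2 := by
  unfold E ker
  rw [div_mul_eq_mul_div, div_div, mul_comm (2 : ℝ)]

theorem abs_ker_le {d : ℝ} (hd : 0 < d) (x : ℝ) : |ker d x| ≤ 1 / (2 * d) := by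
  unfold ker
  rw [abs_div, abs_of_pos (den_pos hd x), div_le_div_iff₀ (den_pos hd x) (by positivity)]
  have h1 : |x| * (2 * d) ≤ |x| ^ 2 + d ^ 2 := by nlinarith [sq_nonneg (|x| - d)]
  rw [sq_abs] at h1
  linarith

theorem ker_lip {d : ℝ} (hd : 0 < d) (x x' : ℝ) : |ker d x - ker d x'| ≤ |x - x'| / d ^ 2 := by
  have h := den_pos hd x
  have h' := den_pos hd x'
  have e : ker d x - ker d x' =
      (x - x') * ((d ^ 2 - x * x') / ((x ^ 2 + d ^ 2) * (x' ^ 2 + d ^ 2))) := by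
    unfold ker
    have h1 := h.ne'
    have h2 := h'.ne'
    field_simp
    ring
  have h3 : |(d ^ 2 - x * x') / ((x ^ 2 + d ^ 2) * (x' ^ 2 + d ^ 2))| ≤ 1 / d ^ 2 := by
    rw [abs_div, abs_of_pos (mul_pos h h'), div_le_div_iff₀ (mul_pos h h') (by positivity)]
    have h4 : (d ^ 2 - x * x') ^ 2 ≤ (x ^ 2 + d ^ 2) * (x' ^ 2 + d ^ 2) := by
      nlinarith [sq_nonneg (x + x'), sq_nonneg d, mul_nonneg (sq_nonneg d) (sq_nonneg (x + x'))]
    have h5 : d ^ 2 * d ^ 2 ≤ (x ^ 2 + d ^ 2) * (x' ^ 2 + d ^ 2) := by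
      apply mul_le_mul _ _ (sq_nonneg d) h.le <;> nlinarith [sq_nonneg x, sq_nonneg x']
    have h6 : (|d ^ 2 - x * x'| * d ^ 2) ^ 2 ≤ ((x ^ 2 + d ^ 2) * (x' ^ 2 + d ^ 2)) ^ 2 := by
      rw [mul_pow, sq_abs]
      calc (d ^ 2 - x * x') ^ 2 * (d ^ 2) ^ 2 = (d ^ 2 - x * x') ^ 2 * (d ^ 2 * d ^ 2) := by ring
        _ ≤ ((x ^ 2 + d ^ 2) * (x' ^ 2 + d ^ 2)) * ((x ^ 2 + d ^ 2) * (x' ^ 2 + d ^ 2)) :=
            mul_le_mul h4 h5 (by positivity) (by positivity)
        _ = _ := by ring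
    have h7 := abs_le_of_sq_le_sq h6 (mul_pos h h').le
    rw [abs_of_nonneg (by positivity)] at h7
    linarith
  rw [e, abs_mul]
  calc |x - x'| * |(d ^ 2 - x * x') / ((x ^ 2 + d ^ 2) * (x' ^ 2 + d ^ 2))|
      ≤ |x - x'| * (1 / d ^ 2) := mul_le_mul_of_nonneg_left h3 (abs_nonneg _)
    _ = _ := by ring

theorem abs_E_le {d : ℝ} (hd : 0 < d) (a x y : ℝ) : |E d a x y| ≤ (y - a * x) ^ 2 / (4 * d) := by
  rw [E_eq, abs_div, abs_mul, abs_of_nonneg (sq_nonneg (y - a * x)),
    abs_of_pos (two_pos : (0 : ℝ) < 2)]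
  have h1 := mul_le_mul_of_nonneg_right (abs_ker_le hd x) (sq_nonneg (y - a * x))
  have h2 : 1 / (2 * d) * (y - a * x) ^ 2 = 2 * ((y - a * x) ^ 2 / (4 * d)) := by
    have := hd.ne'
    field_simp
    ring
  rw [h2] at h1
  linarith

theorem abs_E_le' {d W : ℝ} (hd : 0 < d) {a x y : ℝ} (hW : |y - a * x| ≤ W) :
    |E d a x y| ≤ W ^ 2 / (4 * d) := by
  refine (abs_E_le hd a x y).trans ?_
  apply div_le_div_of_nonneg_right _ (by positivity)
  rw [← sq_abs]
  exact pow_le_pow_left₀ (abs_nonneg _) hW 2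

/-- The edge potential is Lipschitz in `x` and `w = y - a x`. -/
theorem E_lip {d W : ℝ} (hd : 0 < d) {a a' x y x' y' : ℝ}
    (hW : |y - a * x| ≤ W) (hW' : |y' - a' * x'| ≤ W) :
    |E d a x y - E d a' x' y'| ≤
      W ^ 2 / (2 * d ^ 2) * |x - x'| + W / (2 * d) * |(y - a * x) - (y' - a' * x')| := by
  rw [E_eq, E_eq]
  set w := y - a * x with hw
  set w' := y' - a' * x' with hw'
  have hW0 : 0 ≤ W := (abs_nonneg _).trans hW
  have e : ker d x * w ^ 2 / 2 - ker d x' * w' ^ 2 / 2 =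
      (ker d x - ker d x') * w ^ 2 / 2 + ker d x' * ((w - w') * (w + w')) / 2 := by ring
  rw [e]
  refine (abs_add_le _ _).trans (add_le_add ?_ ?_)
  · rw [abs_div, abs_mul, abs_of_nonneg (sq_nonneg w), abs_of_pos (two_pos : (0 : ℝ) < 2)]
    have h1 : w ^ 2 ≤ W ^ 2 := by
      rw [← sq_abs]; exact pow_le_pow_left₀ (abs_nonneg _) hW 2
    have h2 := mul_le_mul (ker_lip hd x x') h1 (sq_nonneg w) (by positivity)
    have h3 : |x - x'| / d ^ 2 * W ^ 2 = 2 * (W ^ 2 / (2 * d ^ 2) * |x - x'|) := by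
      have := hd.ne'
      field_simp
    rw [h3] at h2
    linarith
  · rw [abs_div, abs_mul, abs_mul, abs_of_pos (two_pos : (0 : ℝ) < 2)]
    have h1 : |w + w'| ≤ 2 * W := (abs_add_le _ _).trans (by linarith)
    have h2 : |w - w'| * |w + w'| ≤ |w - w'| * (2 * W) :=
      mul_le_mul_of_nonneg_left h1 (abs_nonneg _)
    have h3 := mul_le_mul (abs_ker_le hd x') h2 (by positivity) (by positivity)
    have h4 : 1 / (2 * d) * (|w - w'| * (2 * W)) = 2 * (W / (2 * d) * |w - w'|) := by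
      have := hd.ne'
      field_simp
    rw [h4] at h3
    linarith

/-- Nearly opposite darts: the potentials nearly cancel. -/
theorem E_opp {d W eps : ℝ} (hd : 0 < d) {a x y x' y' : ℝ}
    (hW : |y - a * x| ≤ W) (hW' : |y' - a * x'| ≤ W)
    (hx : |x + x'| ≤ eps) (hw : |(y - a * x) + (y' - a * x')| ≤ eps) :
    |E d a x y + E d a x' y'| ≤ (W ^ 2 / (2 * d ^ 2) + W / (2 * d)) * eps := by
  have h1 : E d a x' y' = -E d a (-x') (-y') := by rw [E_neg, neg_neg]
  rw [h1, ← sub_eq_add_neg]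
  have h2 : |-y' - a * -x'| ≤ W := by
    have : -y' - a * -x' = -(y' - a * x') := by ring
    rw [this, abs_neg]; exact hW'
  refine (E_lip hd hW h2).trans ?_
  have hW0 : 0 ≤ W := (abs_nonneg _).trans hW
  have e1 : x - -x' = x + x' := by ring
  have e2 : y - a * x - (-y' - a * -x') = (y - a * x) + (y' - a * x') := by ring
  rw [e1, e2, add_mul]
  exact add_le_add (mul_le_mul_of_nonneg_left hx (by positivity))
    (mul_le_mul_of_nonneg_left hw (by positivity))

/-- The jump is small where the field values are close. -/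
theorem J_le_close {a b x y k W : ℝ} (hab : |a - b| ≤ k) (hk : 0 ≤ k)
    (h1 : |y - a * x| ≤ W) (h2 : |y - b * x| ≤ W) : |J a b x y| ≤ k * W := by
  rw [C2305bB.J_abs]
  have h3 : |y - (a + b) / 2 * x| ≤ W := by
    have e : y - (a + b) / 2 * x = ((y - a * x) + (y - b * x)) / 2 := by ring
    rw [e, abs_div, abs_of_pos (two_pos : (0 : ℝ) < 2)]
    have := abs_add_le (y - a * x) (y - b * x)
    rw [div_le_iff₀ two_pos]
    linarith
  exact mul_le_mul hab h3 (abs_nonneg _) hk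

/-- Window coordinates from the coordinates of the frame. -/
theorem frame_inv {L x y : ℝ} {F : Fr} (hL : L ≠ 0) :
    x = F.c * (F.c * x + F.S * y / L) - F.S / L * (F.c * y - L * F.S * x) ∧
    y = F.c * (F.c * y - L * F.S * x) + L * F.S * (F.c * x + F.S * y / L) := by
  constructor
  · field_simp
    linear_combination (-(x * L)) * F.nrm
  · field_simp
    linear_combination (-y) * F.nrm

/-- If the field value `a` is within `C` of the slope of the frame, `x` and `y - a x` are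
controlled by the coordinates of the frame. -/
theorem frame_w_le {L a C x y P Q : ℝ} {F : Fr} (hL : 1 ≤ L) (ha : |a| ≤ L)
    (hC : |L * F.S - a * F.c| ≤ C) (hP : |F.c * x + F.S * y / L| ≤ P)
    (hQ : |F.c * y - L * F.S * x| ≤ Q) : |x| ≤ P + Q ∧ |y - a * x| ≤ C * P + 2 * Q := by
  have hL0 : 0 < L := by linarith
  obtain ⟨h1, h2⟩ := frame_inv (x := x) (y := y) (F := F) hL0.ne'
  set p := F.c * x + F.S * y / L with hp
  set r := F.c * y - L * F.S * x with hr
  have hP0 : 0 ≤ P := (abs_nonneg _).trans hP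
  have hQ0 : 0 ≤ Q := (abs_nonneg _).trans hQ
  have hC0 : 0 ≤ C := (abs_nonneg _).trans hC
  have hc := F.c_le_one
  have hc0 := F.c0
  have hS := F.abs_S_le
  have hcabs : |F.c| ≤ 1 := by rw [abs_of_nonneg hc0]; exact hc
  have hSL : |F.S / L| ≤ 1 := by
    rw [abs_div, abs_of_pos hL0, div_le_one hL0]; linarith
  constructor
  · rw [h1]
    refine (abs_sub _ _).trans (add_le_add ?_ ?_)
    · rw [abs_mul]
      calc |F.c| * |p| ≤ 1 * P := mul_le_mul hcabs hP (abs_nonneg _) zero_le_one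
        _ = P := one_mul _
    · rw [abs_mul]
      calc |F.S / L| * |r| ≤ 1 * Q := mul_le_mul hSL hQ (abs_nonneg _) zero_le_one
        _ = Q := one_mul _
  · have e : y - a * x = (L * F.S - a * F.c) * p + (F.c + a * (F.S / L)) * r := by
      linear_combination h2 - a * h1
    rw [e]
    refine (abs_add_le _ _).trans (add_le_add ?_ ?_)
    · rw [abs_mul]
      exact mul_le_mul hC hP (abs_nonneg _) hC0
    · rw [abs_mul]
      apply mul_le_mul _ hQ (abs_nonneg _) zero_le_two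
      refine (abs_add_le _ _).trans ?_
      rw [abs_mul, abs_div, abs_of_pos hL0]
      have h3 : |a| * (|F.S| / L) ≤ 1 := by
        rw [mul_div_assoc', div_le_one hL0]
        calc |a| * |F.S| ≤ L * 1 := mul_le_mul ha hS (abs_nonneg _) hL0.le
          _ = L := mul_one _
      linarith

end C2305bG
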