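import Pool.Agent.W_c2305b_h35.Window
import Pool.Agent.W_c2305b_h68.Cyc
import Pool.Agent.W_c2305b_h72.EPot
import Pool.Agent.W_c2305b_h72.NearSym

/-!
# The signed flux of a window and the potential identity
-/

namespace C2305b.TL

open Set Module MeasureTheory
open C2305bH68 (Chain ext slope energy)

namespace Tiling

variable {ι : Type*} (T : Tiling ι)

/-- The signed jump over a dart. -/
noncomputable def Jd (a b : ℝ) (d : V × V) : ℝ := C2305bB.J a b (d.2 0 - d.1 0) (d.2 1 - d.1 1)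

/-- The edge potential of a dart. -/
noncomputable def Ed (δ a : ℝ) (d : V × V) : ℝ := C2305bG.E δ a (d.2 0 - d.1 0) (d.2 1 - d.1 1)

lemma Ed_swap (δ a : ℝ) (d : V × V) : Ed δ a d.swap = -Ed δ a d := by
  unfold Ed
  rw [← C2305bG.E_neg]
  simp only [Prod.fst_swap, Prod.snd_swap, neg_sub]

lemma chi_mul_Jd {δ : ℝ} (hδ : 0 < δ) (a b : ℝ) (d : V × V) :
    C2305bG.chi δ (d.2 0 - d.1 0) * Jd a b d = -(Ed δ a d + Ed δ b d.swap) := by
  rw [Ed_swap]
  unfold Jd Ed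
  rw [C2305bG.chi_mul_J hδ]
  ring

/-- The signed flux of the field `a` over the inner edges. -/
noncomputable def Sg [Fintype ι] [LinearOrder ι] (a : ι → ℝ) : ℝ :=
  ∑ i, ∑ j ∈ Finset.univ.filter (fun j => i < j), ∑ d ∈ T.common i j, Jd (a i) (a j) d

open Classical in
/-- The remainder of a common dart `d` of the tiles `i`, `j`. -/
noncomputable def remd (δ : ℝ) (G : Finset ι) (a : ι → ℝ) (i j : ι) (d : V × V) : ℝ :=
  if i ∈ G ∧ j ∈ G then (1 - C2305bG.chi δ (d.2 0 - d.1 0)) * |Jd (a i) (a j) d|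
  else |Jd (a i) (a j) d| + (if i ∈ G then |Ed δ (a i) d| else 0) +
    (if j ∈ G then |Ed δ (a j) d| else 0)

/-- **Potential identity, as an inequality.** For any set `G` of tiles the signed flux is bounded
by the potential sums around the tiles of `G` and the remainders. -/
theorem abs_Sg_le [Fintype ι] [LinearOrder ι] {δ : ℝ} (hδ : 0 < δ) (G : Finset ι) (a : ι → ℝ) :
    |T.Sg a| ≤ ∑ i ∈ G, |∑ d ∈ T.edges i, Ed δ (a i) d| +
      ∑ i ∈ G, ∑ d ∈ T.bdEdges i, |Ed δ (a i) d| +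
      ∑ i, ∑ j ∈ Finset.univ.filter (fun j => i < j), ∑ d ∈ T.common i j, remd δ G a i j d := by
  classical
  let φ : ι → V × V → ℝ := fun i d => if i ∈ G then Ed δ (a i) d else 0
  have h1 := T.sum_all_inEdges φ
  -- the left side of the pairing identity
  have h2 : ∑ i, ∑ d ∈ T.inEdges i, φ i d =
      ∑ i ∈ G, ∑ d ∈ T.edges i, Ed δ (a i) d - ∑ i ∈ G, ∑ d ∈ T.bdEdges i, Ed δ (a i) d := by
    have h3 : ∀ i, ∑ d ∈ T.inEdges i, φ i d = if i ∈ G then
        (∑ d ∈ T.edges i, Ed δ (a i) d - ∑ d ∈ T.bdEdges i, Ed δ (a i) d) else 0 := by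
      intro i
      by_cases hi : i ∈ G
      · simp only [φ, if_pos hi]
        rw [T.sum_edges_split i]; ring
      · simp only [φ, if_neg hi, Finset.sum_const_zero]
    simp only [h3]
    rw [← Finset.sum_sub_distrib, ← Finset.sum_filter]
    apply Finset.sum_congr _ fun _ _ => rfl
    ext i; simp
  -- every dart
  have h4 : ∀ i j d, |Jd (a i) (a j) d + (φ i d + φ j d.swap)| ≤ remd δ G a i j d := by
    intro i j d
    unfold remd
    by_cases hij : i ∈ G ∧ j ∈ G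
    · rw [if_pos hij]
      simp only [φ, if_pos hij.1, if_pos hij.2]
      have h5 := chi_mul_Jd hδ (a i) (a j) d
      have h6 : Jd (a i) (a j) d + (Ed δ (a i) d + Ed δ (a j) d.swap) =
          (1 - C2305bG.chi δ (d.2 0 - d.1 0)) * Jd (a i) (a j) d := by linarith
      rw [h6, abs_mul, abs_of_nonneg (sub_nonneg.mpr (C2305bG.chi_le_one hδ _))]
    · rw [if_neg hij]
      refine (abs_add_le _ _).trans ?_
      rw [add_assoc]
      refine add_le_add le_rfl ((abs_add_le _ _).trans (add_le_add ?_ ?_))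
      · simp only [φ]; split_ifs <;> simp
      · simp only [φ]
        split_ifs
        · rw [Ed_swap, abs_neg]
        · simp
  have h5 : T.Sg a = ∑ i, ∑ j ∈ Finset.univ.filter (fun j => i < j), ∑ d ∈ T.common i j,
      (Jd (a i) (a j) d + (φ i d + φ j d.swap)) -
      (∑ i ∈ G, ∑ d ∈ T.edges i, Ed δ (a i) d - ∑ i ∈ G, ∑ d ∈ T.bdEdges i, Ed δ (a i) d) := by
    rw [← h2, h1]
    unfold Sg
    simp only [Finset.sum_add_distrib]
    ring
  rw [h5]
  have h6 : |∑ i, ∑ j ∈ Finset.univ.filter (fun j => i < j), ∑ d ∈ T.common i j,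
      (Jd (a i) (a j) d + (φ i d + φ j d.swap))| ≤
      ∑ i, ∑ j ∈ Finset.univ.filter (fun j => i < j), ∑ d ∈ T.common i j, remd δ G a i j d := by
    refine (Finset.abs_sum_le_sum_abs _ _).trans (Finset.sum_le_sum fun i _ => ?_)
    refine (Finset.abs_sum_le_sum_abs _ _).trans (Finset.sum_le_sum fun j _ => ?_)
    exact (Finset.abs_sum_le_sum_abs _ _).trans (Finset.sum_le_sum fun d _ => h4 i j d)
  have h7 : |∑ i ∈ G, ∑ d ∈ T.edges i, Ed δ (a i) d| ≤
      ∑ i ∈ G, |∑ d ∈ T.edges i, Ed δ (a i) d| := Finset.abs_sum_le_sum_abs _ _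
  have h8 : |∑ i ∈ G, ∑ d ∈ T.bdEdges i, Ed δ (a i) d| ≤
      ∑ i ∈ G, ∑ d ∈ T.bdEdges i, |Ed δ (a i) d| :=
    (Finset.abs_sum_le_sum_abs _ _).trans
      (Finset.sum_le_sum fun i _ => Finset.abs_sum_le_sum_abs _ _)
  rw [abs_le] at *
  constructor <;> linarith [h6.1, h6.2, h7.1, h7.2, h8.1, h8.2]

/-- The potential sum around a nearly centrally symmetric hexagonal tile, edges given. -/
theorem abs_Phi_le_q (i : ι) {q : Fin 6 → V} (hinj : Function.Injective q)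
    (hq : ∀ p : V × V, p ∈ T.edges i ↔ ∃ k, p = (q k, q (k + 1))) {δ a W ε : ℝ} (hδ : 0 < δ)
    (hW : ∀ d ∈ T.edges i, |(d.2 1 - d.1 1) - a * (d.2 0 - d.1 0)| ≤ W)
    (hs : ∀ k, |((q (k + 1) - q k) + (q (k + 4) - q (k + 3))) 0| ≤ ε ∧
        |((q (k + 1) - q k) + (q (k + 4) - q (k + 3))) 1 -
          a * ((q (k + 1) - q k) + (q (k + 4) - q (k + 3))) 0| ≤ ε) :
    |∑ d ∈ T.edges i, Ed δ a d| ≤ 3 * ((W ^ 2 / (2 * δ ^ 2) + W / (2 * δ)) * ε) := by
  classical
  have hE : ∀ k, (q k, q (k + 1)) ∈ T.edges i := fun k => (hq _).2 ⟨k, rfl⟩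
  have hsum : ∑ d ∈ T.edges i, Ed δ a d = ∑ k : Fin 6, Ed δ a (q k, q (k + 1)) := by
    symm
    refine Finset.sum_bij (fun k _ => ((q k, q (k + 1)) : V × V)) ?_ ?_ ?_ ?_
    · intro k _
      exact hE k
    · intro k _ l _ hkl
      exact hinj (congrArg Prod.fst hkl)
    · intro e he
      obtain ⟨k, hk⟩ := (hq e).1 he
      exact ⟨k, Finset.mem_univ k, hk.symm⟩
    · intro k _
      rfl
  have hpair : ∀ k : Fin 6, |Ed δ a (q k, q (k + 1)) + Ed δ a (q (k + 3), q (k + 4))| ≤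
      (W ^ 2 / (2 * δ ^ 2) + W / (2 * δ)) * ε := by
    intro k
    unfold Ed
    have h1 := hW _ (hE k)
    have h2 := hW _ (hE (k + 3))
    have e4 : k + 3 + 1 = k + 4 := by rw [add_assoc]; rfl
    rw [e4] at h2
    obtain ⟨h3, h4⟩ := hs k
    apply C2305bG.E_opp hδ h1 h2
    · refine le_of_eq_of_le ?_ h3
      simp only [PiLp.add_apply, PiLp.sub_apply]
    · refine le_of_eq_of_le ?_ h4
      simp only [PiLp.add_apply, PiLp.sub_apply]
      congr 1
      ring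
  rw [hsum]
  have e : ∑ k : Fin 6, Ed δ a (q k, q (k + 1)) =
      (Ed δ a (q 0, q (0 + 1)) + Ed δ a (q (0 + 3), q (0 + 4))) +
      (Ed δ a (q 1, q (1 + 1)) + Ed δ a (q (1 + 3), q (1 + 4))) +
      (Ed δ a (q 2, q (2 + 1)) + Ed δ a (q (2 + 3), q (2 + 4))) := by
    rw [Fin.sum_univ_six]
    have f1 : (0 : Fin 6) + 3 = 3 := rfl
    have f2 : (0 : Fin 6) + 4 = 3 + 1 := rfl
    have f3 : (1 : Fin 6) + 3 = 4 := rfl
    have f4 : (1 : Fin 6) + 4 = 4 + 1 := rfl
    have f5 : (2 : Fin 6) + 3 = 5 := rfl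
    have f6 : (2 : Fin 6) + 4 = 5 + 1 := rfl
    rw [f1, f2, f3, f4, f5, f6]
    ring
  rw [e]
  have h0 := hpair 0
  have h1 := hpair 1
  have h2 := hpair 2
  refine (abs_add_le _ _).trans ?_
  have := abs_add_le (Ed δ a (q 0, q (0 + 1)) + Ed δ a (q (0 + 3), q (0 + 4)))
    (Ed δ a (q 1, q (1 + 1)) + Ed δ a (q (1 + 3), q (1 + 4)))
  linarith

/-- The same with the coordinates of a frame. -/
theorem abs_Phi_le_frame_q (i : ι) {q : Fin 6 → V} (hinj : Function.Injective q)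
    (hq : ∀ p : V × V, p ∈ T.edges i ↔ ∃ k, p = (q k, q (k + 1)))
    {δ a C R L ε : ℝ} {F : C2305bB.Fr}
    (hδ : 0 < δ) (hL : 1 ≤ L) (ha : |a| ≤ L) (hC : |L * F.S - a * F.c| ≤ C) (hR : 0 ≤ R)
    (hfit : ∀ z ∈ T.P i, ∀ z' ∈ T.P i, C2305bB.Fits L F R (z 0 - z' 0) (z 1 - z' 1))
    (hs : ∀ k, ∀ e : V, e = (q (k + 1) - q k) + (q (k + 4) - q (k + 3)) →
        |F.c * e 0 + F.S * e 1 / L| ≤ ε ∧ |F.c * e 1 - L * F.S * e 0| ≤ ε) :
    |∑ d ∈ T.edges i, Ed δ a d| ≤ 3 * ((((C + 2) * R) ^ 2 / (2 * δ ^ 2) +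
      ((C + 2) * R) / (2 * δ)) * ((C + 2) * ε)) := by
  have hC0 : 0 ≤ C := (abs_nonneg _).trans hC
  apply T.abs_Phi_le_q i hinj hq hδ
  · intro d hd
    have h1 := T.mem_edges.1 hd
    have h2 := hfit _ h1.2.1.2 _ h1.1.2
    have h3 := (C2305bG.frame_w_le hL ha hC (h2.b1 hR) (h2.b2 hR)).2
    linarith
  · intro k
    obtain ⟨h1, h2⟩ := hs k _ rfl
    have hε : 0 ≤ ε := (abs_nonneg _).trans h1
    obtain ⟨h3, h4⟩ := C2305bG.frame_w_le hL ha hC h1 h2
    constructor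
    · refine h3.trans ?_
      nlinarith
    · refine h4.trans (le_of_eq ?_)
      ring

/-- A hexagonal tile has a cyclic labeling. -/
theorem exists_label (i : ι) (hm : (T.verts i).card = 6) :
    ∃ q : Fin 6 → V, Function.Injective q ∧
      (∀ p : V × V, p ∈ T.edges i ↔ ∃ k, p = (q k, q (k + 1))) ∧
      (∀ k, T.E i (q k) (q (k + 1))) ∧ C2305b.Rig.Conv6 q ∧
      (volume (T.P i)).toReal = C2305b.Rig.ar6 q := by
  classical
  have hne : (T.verts i).Nonempty := by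
    rw [← Finset.card_pos, hm]; norm_num
  obtain ⟨v, hv⟩ := hne
  obtain ⟨q, _, hinj, hran, hE, hC, hA⟩ := C2305bH68.Cyc.exists_six T i hm hv
  refine ⟨q, hinj, ?_, hE, hC, hA⟩
  intro e
  constructor
  · intro he
    have h5 := T.mem_edges.1 he
    have h6 : e.1 ∈ range q := by rw [hran]; exact T.mem_verts.2 h5.1
    obtain ⟨k, hk⟩ := h6
    refine ⟨k, ?_⟩
    have h7 : T.E i (q k) e.2 := by rw [hk]; exact h5
    exact (Prod.ext hk (T.next_unique i h7 (hE k))).symm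
  · rintro ⟨k, rfl⟩
    exact T.mem_edges.2 (hE k)

/-- The potential sum around a hexagonal tile which is nearly centrally symmetric in the
coordinates of its frame. -/
theorem abs_Phi_le_frame (i : ι) (hm : (T.verts i).card = 6) {δ a C R L ε : ℝ} {F : C2305bB.Fr}
    (hδ : 0 < δ) (hL : 1 ≤ L) (ha : |a| ≤ L) (hC : |L * F.S - a * F.c| ≤ C) (hR : 0 ≤ R)
    (hfit : ∀ z ∈ T.P i, ∀ z' ∈ T.P i, C2305bB.Fits L F R (z 0 - z' 0) (z 1 - z' 1))
    (hs : ∀ q : Fin 6 → V, (∀ k, T.E i (q k) (q (k + 1))) → C2305b.Rig.Conv6 q →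
      (volume (T.P i)).toReal = C2305b.Rig.ar6 q →
      ∀ k, ∀ e : V, e = (q (k + 1) - q k) + (q (k + 4) - q (k + 3)) →
        |F.c * e 0 + F.S * e 1 / L| ≤ ε ∧ |F.c * e 1 - L * F.S * e 0| ≤ ε) :
    |∑ d ∈ T.edges i, Ed δ a d| ≤ 3 * ((((C + 2) * R) ^ 2 / (2 * δ ^ 2) +
      ((C + 2) * R) / (2 * δ)) * ((C + 2) * ε)) := by
  obtain ⟨q, h1, h2, h3, h4, h5⟩ := T.exists_label i hm
  exact T.abs_Phi_le_frame_q i h1 h2 hδ hL ha hC hR hfit (hs q h3 h4 h5)

end Tiling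

namespace Win

variable {ι : Type*} (Z : Win ι)

/-- **Window flux inequality, signed form.** -/
theorem flux_le_signed [Fintype ι] [LinearOrder ι] (a : ι → ℝ) :
    ∑ i, ∑ r ∈ Finset.range Z.m, ∑ d ∈ Z.low i r, fl (a i) d ≤ -Z.T.Sg a := by
  classical
  let F : ι → V := fun i => !₂[a i, a i ^ 2 / 2]
  have hF : ∀ i (u v : V), cr (F i) (u - v) = a i * (u 1 - v 1) - a i ^ 2 / 2 * (u 0 - v 0) := by
    intro i u v; simp [F, cr]
  have hflux := Z.T.flux F
  have h1 : ∑ i, ∑ r ∈ Finset.range Z.m, ∑ d ∈ Z.low i r, fl (a i) d ≤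
      ∑ i, ∑ d ∈ Z.T.bdEdges i, cr (F i) (d.2 - d.1) := by
    apply Finset.sum_le_sum
    intro i _
    have hdis : (↑(Finset.range Z.m) : Set ℕ).PairwiseDisjoint (fun r => Z.low i r) := by
      intro r hr r' hr' hrr
      rw [Function.onFun, Finset.disjoint_left]
      intro d hd hd'
      rw [Z.mem_low] at hd hd'
      apply hrr
      obtain ⟨_, _, o1, o2, o3⟩ := hd
      obtain ⟨_, _, o4, o5, _⟩ := hd'
      exact Z.index_unique (Finset.mem_range.mp hr) (Finset.mem_range.mp hr')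
        (t := (d.1 0 + d.2 0) / 2) (by linarith [o1.1]) (by linarith [o2.2.1])
        (by linarith [o4.1]) (by linarith [o5.2.1])
    rw [← Finset.sum_biUnion hdis]
    have hsub : (Finset.range Z.m).biUnion (fun r => Z.low i r) ⊆ Z.T.bdEdges i := by
      intro d hd
      rw [Finset.mem_biUnion] at hd
      obtain ⟨r, _, hd⟩ := hd
      unfold low at hd
      exact (Finset.mem_filter.mp hd).1
    rw [← Finset.sum_sdiff hsub]
    have h2 : ∑ d ∈ (Finset.range Z.m).biUnion (fun r => Z.low i r), fl (a i) d =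
        ∑ d ∈ (Finset.range Z.m).biUnion (fun r => Z.low i r), cr (F i) (d.2 - d.1) := by
      apply Finset.sum_congr rfl
      intro d _
      rw [hF]; rfl
    rw [h2]
    have h3 : 0 ≤ ∑ d ∈ Z.T.bdEdges i \ (Finset.range Z.m).biUnion (fun r => Z.low i r),
        cr (F i) (d.2 - d.1) := by
      apply Finset.sum_nonneg
      intro d hd
      rw [Finset.mem_sdiff, Finset.mem_biUnion] at hd
      have hbd : Z.T.E i d.1 d.2 ∧ Z.T.Bd d.1 d.2 := by
        have := hd.1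
        unfold Tiling.bdEdges at this
        rw [Finset.mem_filter, Z.T.mem_edges] at this
        exact this
      rcases Z.bd_cases hbd.1 hbd.2 with ⟨e1, e2, e3⟩ | ⟨r, hr, o1, o2, o3⟩
      · rw [hF, e1, e2, sub_self, mul_zero, zero_sub]
        have : 0 ≤ a i ^ 2 / 2 * (d.1 0 - d.2 0) :=
          mul_nonneg (by positivity) (by linarith)
        linarith
      · exfalso
        apply hd.2
        exact ⟨r, Finset.mem_range.mpr hr, (Z.mem_low).mpr ⟨hbd.1, hbd.2, o1, o2, o3⟩⟩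
    linarith
  have h4 : ∑ i, ∑ j ∈ Finset.univ.filter (fun j => i < j), ∑ p ∈ Z.T.common i j,
        cr (F i - F j) (p.2 - p.1) = Z.T.Sg a := by
    unfold Tiling.Sg
    apply Finset.sum_congr rfl
    intro i _
    apply Finset.sum_congr rfl
    intro j _
    apply Finset.sum_congr rfl
    intro d _
    rw [cr_sub_left, hF, hF]
    unfold Tiling.Jd C2305bB.J
    ring
  linarith

/-- **(2a), signed form.** -/
theorem energy_le_signed [Fintype ι] [LinearOrder ι] (a : ι → ℝ) (B : ℝ)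
    (hB : ∀ i, ∀ r < Z.m, ∀ d ∈ Z.low i r,
      (d.2 0 - d.1 0) * (slope Z.x Z.y r - a i) ^ 2 ≤ B) :
    energy Z.m Z.x Z.y ≤
      B * (∑ i, ∑ r ∈ Finset.range Z.m, (Z.low i r).card : ℕ) + 2 * |Z.T.Sg a| := by
  classical
  have h1 := Z.flux_le_signed a
  have h2 : energy Z.m Z.x Z.y ≤ ∑ i, ∑ r ∈ Finset.range Z.m, ∑ d ∈ Z.low i r,
      (d.2 0 - d.1 0) * slope Z.x Z.y r ^ 2 := by
    rw [Finset.sum_comm]
    unfold C2305bH68.energy
    apply Finset.sum_le_sum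
    intro r hr
    have h3 := Z.ext_le (Finset.mem_range.mp hr)
    have h4 := mul_le_mul_of_nonneg_right h3 (sq_nonneg (slope Z.x Z.y r))
    refine h4.trans (le_of_eq ?_)
    rw [Finset.sum_mul]
    apply Finset.sum_congr rfl
    intro i _
    rw [Finset.sum_mul]
  have h3 : ∑ i, ∑ r ∈ Finset.range Z.m, ∑ d ∈ Z.low i r,
      (d.2 0 - d.1 0) * slope Z.x Z.y r ^ 2 ≤
      ∑ i, ∑ r ∈ Finset.range Z.m, ∑ d ∈ Z.low i r, (B + 2 * fl (a i) d) := by
    apply Finset.sum_le_sum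
    intro i _
    apply Finset.sum_le_sum
    intro r hr
    apply Finset.sum_le_sum
    intro d hd
    have h4 := hB i r (Finset.mem_range.mp hr) d hd
    have h5 := Z.low_slope hd
    unfold fl
    rw [h5]
    nlinarith
  have h4 : ∑ i, ∑ r ∈ Finset.range Z.m, ∑ d ∈ Z.low i r, (B + 2 * fl (a i) d) =
      B * (∑ i, ∑ r ∈ Finset.range Z.m, (Z.low i r).card : ℕ) +
      2 * ∑ i, ∑ r ∈ Finset.range Z.m, ∑ d ∈ Z.low i r, fl (a i) d := by
    simp only [Finset.sum_add_distrib, Finset.sum_const, nsmul_eq_mul, Finset.mul_sum]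
    push_cast
    simp only [Finset.mul_sum]
    congr 1
    apply Finset.sum_congr rfl
    intro i _
    apply Finset.sum_congr rfl
    intro r _
    ring
  have h5 := neg_le_abs (Z.T.Sg a)
  linarith

end Win

end C2305b.TL
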