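import Pool.Agent.W_c2305b_h72.SignedFlux
import Pool.Agent.W_c2305b_h35.Jump
import Pool.Agent.W_c2305b_h35.Count3

/-!
# The signed flux of a window: counting form
-/

namespace C2305b.TL

open Set Module MeasureTheory
open C2305bB (Fr Fits mis al Meets)

open Classical in
/-- A sum over the pairs of adjacent tiles of a window, by the classes of the pairs. -/
theorem pair_sum_le {J0 K : Type} {T : Tiling J0} {e : K → J0} (he : Function.Injective e)
    (Z : Win K) [Fintype K] [LinearOrder K] (hS : Z.T.Sharp)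
    (hc : ∀ i j, i ≠ j → ∀ d ∈ Z.T.common i j, ∃ d0 ∈ T.common (e i) (e j),
      segment ℝ d.1 d.2 ⊆ segment ℝ d0.1 d0.2)
    {A B : V} (hAB : ∀ z ∈ Z.T.R, cr (B - A) (z - A) < 0) {Bad : Finset (J0 × J0)}
    {b2 b3 b4 b5 : ℝ} (hb2 : 0 ≤ b2) (hb3 : 0 ≤ b3) (hb4 : 0 ≤ b4) (hb5 : 0 ≤ b5)
    (f : K → K → V × V → ℝ) (G : Finset K) (NB NA : Finset J0)
    (hG6 : ∀ i ∈ G, (T.edges (e i)).card ≤ 6) (hB6 : ∀ i ∈ NB, (T.edges i).card ≤ 6)
    (hA6 : ∀ i ∈ NA, (T.edges i).card ≤ 6)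
    (hbad : ∀ i j, i ≠ j → ((e i, e j) ∈ Bad ∨ (e j, e i) ∈ Bad) →
      ∀ d ∈ Z.T.common i j, f i j d ≤ b2)
    (hgood : ∀ i j, i ≠ j → i ∈ G → j ∈ G → (e i, e j) ∉ Bad → (e j, e i) ∉ Bad →
      ∀ d ∈ Z.T.common i j, f i j d ≤ b3)
    (hrest : ∀ i j, i ≠ j → ¬ (i ∈ G ∧ j ∈ G) → (e i, e j) ∉ Bad → (e j, e i) ∉ Bad →
      ∀ d ∈ Z.T.common i j,
        (f i j d ≤ b4 ∧ (e i ∈ NB ∨ e j ∈ NB)) ∨ (f i j d ≤ b5 ∧ (e i ∈ NA ∨ e j ∈ NA))) :
    ∑ i, ∑ j ∈ Finset.univ.filter (fun j => i < j), ∑ d ∈ Z.T.common i j, f i j d ≤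
      b2 * ((Bad.filter fun s => Meets T A B s).card : ℝ) + 6 * b3 * (G.card : ℝ) +
        6 * b4 * (NB.card : ℝ) + 6 * b5 * (NA.card : ℝ) := by
  have hmemR : ∀ i, Z.T.P i ⊆ Z.T.R := fun i => Z.tile_sub i
  -- a common dart meets the half-plane
  have hdart : ∀ i j : K, i ≠ j → ∀ d ∈ Z.T.common i j,
      ∃ d0 ∈ T.common (e i) (e j), Meets T A B (e i, e j) := by
    intro i j hij d hd
    obtain ⟨d0, hd0, hsub⟩ := hc i j hij d hd
    have hd' := hd
    rw [Z.T.mem_common] at hd'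
    obtain ⟨E1, E2⟩ := hd'
    have r1 := hmemR i E1.1.2
    refine ⟨d0, hd0, d0.1, d0.2, T.mem_common.mp hd0, ?_⟩
    by_contra hcon
    push Not at hcon
    have hin := hsub (left_mem_segment ℝ d.1 d.2)
    have hneg := hAB _ r1
    obtain ⟨s, t, hs, ht, hst, hee⟩ := hin
    rw [← hee] at hneg
    have e2 : cr (B - A) (s • d0.1 + t • d0.2 - A) =
        s * cr (B - A) (d0.1 - A) + t * cr (B - A) (d0.2 - A) := by
      have : t = 1 - s := by linarith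
      subst this
      unfold cr
      simp only [PiLp.sub_apply, PiLp.add_apply, PiLp.smul_apply, smul_eq_mul]
      ring
    rw [e2] at hneg
    have := mul_nonneg hs hcon.1
    have := mul_nonneg ht hcon.2
    linarith
  set A0 : Finset (K × K) :=
    Finset.univ.filter (fun q => q.1 < q.2 ∧ (Z.T.common q.1 q.2).Nonempty) with hA0
  set t : K × K → ℝ := fun q => ∑ d ∈ Z.T.common q.1 q.2, f q.1 q.2 d with ht
  have hA0d : ∀ q ∈ A0, q.1 < q.2 ∧ (∃ d, d ∈ T.common (e q.1) (e q.2)) ∧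
      Meets T A B ((e q.1), (e q.2)) ∧ Meets T A B ((e q.2), (e q.1)) := by
    intro q hq
    rw [hA0, Finset.mem_filter] at hq
    obtain ⟨_, hlt, d, hd⟩ := hq
    obtain ⟨d0, hd0, v, w, htw, hm⟩ := hdart q.1 q.2 hlt.ne d hd
    exact ⟨hlt, ⟨d0, hd0⟩, ⟨v, w, htw, hm⟩, ⟨w, v, ⟨htw.2, htw.1⟩, hm.symm⟩⟩
  obtain ⟨P1, hP1⟩ : ∃ Q : K × K → Prop, ∀ q, Q q ↔
      (e q.1, e q.2) ∈ Bad ∨ (e q.2, e q.1) ∈ Bad := ⟨_, fun _ => Iff.rfl⟩
  obtain ⟨P2, hP2⟩ : ∃ Q : K × K → Prop, ∀ q, Q q ↔ (q.1 ∈ G ∧ q.2 ∈ G) :=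
    ⟨_, fun _ => Iff.rfl⟩
  obtain ⟨P3, hP3⟩ : ∃ Q : K × K → Prop, ∀ q, Q q ↔ (e q.1 ∈ NB ∨ e q.2 ∈ NB) :=
    ⟨_, fun _ => Iff.rfl⟩
  obtain ⟨P4, hP4⟩ : ∃ Q : K × K → Prop, ∀ q, Q q ↔ (e q.1 ∈ NA ∨ e q.2 ∈ NA) :=
    ⟨_, fun _ => Iff.rfl⟩
  have hterm : ∀ q ∈ A0, t q ≤ b2 * (if P1 q then 1 else 0) + b3 * (if P2 q then 1 else 0) +
      b4 * (if P3 q then 1 else 0) + b5 * (if P4 q then 1 else 0) := by
    intro q hq
    have hq' := hq
    rw [hA0, Finset.mem_filter] at hq'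
    obtain ⟨_, hlt, d, hd⟩ := hq'
    have hone : Z.T.common q.1 q.2 = {d} := by
      apply Finset.eq_singleton_iff_unique_mem.mpr
      exact ⟨hd, fun e he => Z.T.common_unique hS hlt.ne he hd⟩
    have htq : t q = f q.1 q.2 d := by
      rw [ht]
      simp only
      rw [hone, Finset.sum_singleton]
    rw [htq]
    have n1 : 0 ≤ b2 * (if P1 q then (1 : ℝ) else 0) := by split_ifs <;> simp [hb2]
    have n2 : 0 ≤ b3 * (if P2 q then (1 : ℝ) else 0) := by split_ifs <;> simp [hb3]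
    have n3 : 0 ≤ b4 * (if P3 q then (1 : ℝ) else 0) := by split_ifs <;> simp [hb4]
    have n4 : 0 ≤ b5 * (if P4 q then (1 : ℝ) else 0) := by split_ifs <;> simp [hb5]
    by_cases hp1 : P1 q
    · have := hbad q.1 q.2 hlt.ne ((hP1 q).mp hp1) d hd
      rw [if_pos hp1, mul_one]
      linarith
    · have hp1' := hp1
      rw [hP1, not_or] at hp1'
      by_cases hp2 : P2 q
      · have h2 := (hP2 q).mp hp2
        have := hgood q.1 q.2 hlt.ne h2.1 h2.2 hp1'.1 hp1'.2 d hd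
        rw [if_pos hp2, mul_one]
        linarith
      · have h2 : ¬ (q.1 ∈ G ∧ q.2 ∈ G) := fun h => hp2 ((hP2 q).mpr h)
        rcases hrest q.1 q.2 hlt.ne h2 hp1'.1 hp1'.2 d hd with ⟨h3, h4⟩ | ⟨h3, h4⟩
        · rw [if_pos ((hP3 q).mpr h4), mul_one]
          linarith
        · rw [if_pos ((hP4 q).mpr h4), mul_one]
          linarith
  have hsum : ∑ i, ∑ j ∈ Finset.univ.filter (fun j => i < j), ∑ d ∈ Z.T.common i j, f i j d =
      ∑ q ∈ A0, t q := by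
    have e1 : ∑ i, ∑ j ∈ Finset.univ.filter (fun j => i < j), ∑ d ∈ Z.T.common i j, f i j d =
        ∑ i : K, ∑ j : K, if i < j then t (i, j) else 0 := by
      apply Finset.sum_congr rfl
      intro i _
      rw [Finset.sum_filter]
    rw [e1, ← Fintype.sum_prod_type', hA0, Finset.sum_filter]
    apply Finset.sum_congr rfl
    rintro ⟨i, j⟩ _
    by_cases hlt : i < j
    · by_cases hne : (Z.T.common i j).Nonempty
      · simp [hlt, hne]
      · have hemp : Z.T.common i j = ∅ := Finset.not_nonempty_iff_eq_empty.mp hne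
        have : t (i, j) = 0 := by
          rw [ht]
          simp [hemp]
        simp [hlt, hne, this]
    · simp [hlt]
  have hcount : ∀ (c : ℝ) (Q : K × K → Prop),
      ∑ q ∈ A0, c * (if Q q then (1 : ℝ) else 0) = c * ((A0.filter Q).card : ℝ) := by
    intro c Q
    rw [← Finset.mul_sum, Finset.sum_boole]
  have htot : ∑ q ∈ A0, t q ≤ b2 * ((A0.filter P1).card : ℝ) +
      b3 * ((A0.filter P2).card : ℝ) + b4 * ((A0.filter P3).card : ℝ) +
      b5 * ((A0.filter P4).card : ℝ) := by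
    refine (Finset.sum_le_sum hterm).trans (le_of_eq ?_)
    rw [Finset.sum_add_distrib, Finset.sum_add_distrib, Finset.sum_add_distrib, hcount, hcount,
      hcount, hcount]
  -- bad pairs
  have h1 : ((A0.filter P1).card : ℝ) ≤ ((Bad.filter fun s => Meets T A B s).card : ℝ) := by
    have e1 : (A0.filter P1).card ≤ ((Finset.univ : Finset (K × K)).filter
        (fun q => ((e q.1), (e q.2)) ∈ Bad ∧ Meets T A B ((e q.1), (e q.2)))).card := by
      apply card_pairs_le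
      intro q hq
      obtain ⟨hqA, hqQ⟩ := Finset.mem_filter.mp hq
      obtain ⟨hlt, _, k1, k2⟩ := hA0d q hqA
      refine ⟨hlt, ?_⟩
      rcases (hP1 q).mp hqQ with h | h
      · exact Or.inl (Finset.mem_filter.mpr ⟨Finset.mem_univ _, h, k1⟩)
      · exact Or.inr (Finset.mem_filter.mpr ⟨Finset.mem_univ _, h, k2⟩)
    have e2 : ((Finset.univ : Finset (K × K)).filter
        (fun q => ((e q.1), (e q.2)) ∈ Bad ∧ Meets T A B ((e q.1), (e q.2)))).card ≤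
        (Bad.filter fun s => Meets T A B s).card := by
      refine Finset.card_le_card_of_injOn (fun q => ((e q.1), (e q.2))) ?_ ?_
      · intro q hq
        have hq' := (Finset.mem_filter.mp (Finset.mem_coe.mp hq)).2
        exact Finset.mem_coe.mpr (Finset.mem_filter.mpr hq')
      · rintro ⟨i, j⟩ _ ⟨i', j'⟩ _ he'
        simp only [Prod.mk.injEq] at he'
        exact Prod.ext (he he'.1) (he he'.2)
    exact_mod_cast e1.trans e2
  have h2 : ((A0.filter P2).card : ℝ) ≤ 6 * (G.card : ℝ) := by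
    have e1 := card_pairs_tiles (T := T) he (A := A0.filter P2) (N := G.image e)
      (by
        intro q hq
        obtain ⟨hqA, hqQ⟩ := Finset.mem_filter.mp hq
        obtain ⟨hlt, k, _, _⟩ := hA0d q hqA
        exact ⟨hlt, k, Or.inl (Finset.mem_image_of_mem _ ((hP2 q).mp hqQ).1)⟩)
      (by
        intro i hi
        obtain ⟨k, hk, rfl⟩ := Finset.mem_image.mp hi
        exact hG6 k hk)
    have e2 : (G.image e).card ≤ G.card := Finset.card_image_le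
    have e3 : (A0.filter P2).card ≤ 6 * G.card := e1.trans (Nat.mul_le_mul_left 6 e2)
    exact_mod_cast e3
  have h3 : ((A0.filter P3).card : ℝ) ≤ 6 * (NB.card : ℝ) := by
    have e1 := card_pairs_tiles (T := T) he (A := A0.filter P3) (N := NB)
      (by
        intro q hq
        obtain ⟨hqA, hqQ⟩ := Finset.mem_filter.mp hq
        obtain ⟨hlt, k, _, _⟩ := hA0d q hqA
        exact ⟨hlt, k, (hP3 q).mp hqQ⟩) hB6
    exact_mod_cast e1
  have h4 : ((A0.filter P4).card : ℝ) ≤ 6 * (NA.card : ℝ) := by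
    have e1 := card_pairs_tiles (T := T) he (A := A0.filter P4) (N := NA)
      (by
        intro q hq
        obtain ⟨hqA, hqQ⟩ := Finset.mem_filter.mp hq
        obtain ⟨hlt, k, _, _⟩ := hA0d q hqA
        exact ⟨hlt, k, (hP4 q).mp hqQ⟩) hA6
    exact_mod_cast e1
  rw [hsum]
  refine htot.trans ?_
  have m1 := mul_le_mul_of_nonneg_left h1 hb2
  have m2 := mul_le_mul_of_nonneg_left h2 hb3
  have m3 := mul_le_mul_of_nonneg_left h3 hb4
  have m4 := mul_le_mul_of_nonneg_left h4 hb5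
  linarith

open Classical in
/-- **The signed flux, counting form.** `G`: tiles with the regular field value. Pairs in `Bad` cost
`b2`, other pairs in `G` cost `b3`, other pairs cost `b4` if a member is in `NB` and `b5` if a
member is in `NA`. -/
theorem sg_le_count {J0 K : Type} {T : Tiling J0} {e : K → J0} (he : Function.Injective e)
    (Z : Win K) [Fintype K] [LinearOrder K] (hS : Z.T.Sharp)
    (hc : ∀ i j, i ≠ j → ∀ d ∈ Z.T.common i j, ∃ d0 ∈ T.common (e i) (e j),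
      segment ℝ d.1 d.2 ⊆ segment ℝ d0.1 d0.2)
    {A B : V} (hAB : ∀ z ∈ Z.T.R, cr (B - A) (z - A) < 0) {Bad : Finset (J0 × J0)}
    {δ b1 b2 b3 b4 b5 : ℝ} (hδ : 0 < δ) (hb2 : 0 ≤ b2) (hb3 : 0 ≤ b3) (hb4 : 0 ≤ b4)
    (hb5 : 0 ≤ b5) (a : K → ℝ) (G : Finset K) (NB NA : Finset J0)
    (hG6 : ∀ i ∈ G, (T.edges (e i)).card ≤ 6) (hB6 : ∀ i ∈ NB, (T.edges i).card ≤ 6)
    (hA6 : ∀ i ∈ NA, (T.edges i).card ≤ 6)
    (hbd : ∀ i ∈ G, Z.T.bdEdges i = ∅)
    (hPhi : ∀ i ∈ G, |∑ d ∈ Z.T.edges i, Tiling.Ed δ (a i) d| ≤ b1)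
    (hbad : ∀ i j, i ≠ j → ((e i, e j) ∈ Bad ∨ (e j, e i) ∈ Bad) →
      ∀ d ∈ Z.T.common i j, Tiling.remd δ G a i j d ≤ b2)
    (hgood : ∀ i j, i ≠ j → i ∈ G → j ∈ G → (e i, e j) ∉ Bad → (e j, e i) ∉ Bad →
      ∀ d ∈ Z.T.common i j, Tiling.remd δ G a i j d ≤ b3)
    (hrest : ∀ i j, i ≠ j → ¬ (i ∈ G ∧ j ∈ G) → (e i, e j) ∉ Bad → (e j, e i) ∉ Bad →
      ∀ d ∈ Z.T.common i j,
        (Tiling.remd δ G a i j d ≤ b4 ∧ (e i ∈ NB ∨ e j ∈ NB)) ∨
        (Tiling.remd δ G a i j d ≤ b5 ∧ (e i ∈ NA ∨ e j ∈ NA))) :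
    |Z.T.Sg a| ≤ b1 * (G.card : ℝ) + (b2 * ((Bad.filter fun s => Meets T A B s).card : ℝ) +
      6 * b3 * (G.card : ℝ) + 6 * b4 * (NB.card : ℝ) + 6 * b5 * (NA.card : ℝ)) := by
  refine (Z.T.abs_Sg_le hδ G a).trans (add_le_add ?_ ?_)
  · have h1 : ∑ i ∈ G, ∑ d ∈ Z.T.bdEdges i, |Tiling.Ed δ (a i) d| = 0 := by
      apply Finset.sum_eq_zero
      intro i hi
      rw [hbd i hi, Finset.sum_empty]
    rw [h1, add_zero]
    refine (Finset.sum_le_sum hPhi).trans (le_of_eq ?_)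
    rw [Finset.sum_const, nsmul_eq_mul, mul_comm]
  · exact pair_sum_le he Z hS hc hAB hb2 hb3 hb4 hb5 (Tiling.remd δ G a) G NB NA hG6 hB6 hA6
      hbad hgood hrest

end C2305b.TL
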