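import Pool.Agent.W_c2305b_h72.Reg
import Pool.Agent.W_c2305b_h86.FourCells

/-!
# `Loc` and `Cor` from the cells (MP_c2305b_co, row 552)
-/

namespace C2305bG

open Set MeasureTheory C2305b.TL
open C2305bB (Fr mis Fits al Blk goodSides Meets)
open C2305b.Rig (Conv6 ar6 InBody Am Pos Off Sym6 LeMax)
open W82 (Vb Tv Fv kv cap S Gap Copies Cells GoodV Perfect lossOf ux uy mkFr)
open scoped Pointwise

variable {ι : Type*} {D : Set V} {P : ι → Set V}

/-- The three darts at a good vertex. -/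
theorem cor_of_cells [Finite ι] (h : W82.Tiling D P)
    (hi : (interior (convexHull ℝ (Vb D P))).Nonempty) {K K0 : Set V}
    {T6 A6 τ g ε G η : ℝ}
    (hG : Gap K0 T6 τ g) (hK0c : Convex ℝ K0) (hG0 : volume K0 ≤ ENNReal.ofReal G)
    (hGnn : 0 ≤ G) (hε : 0 ≤ ε) (hε1 : ε ≤ 1) (hεG : 3 * ε * G ≤ g / 2)
    (hKε : K ⊆ (1 + ε) • K0) (hcop : Copies P K) (hT : T6 ≤ A6) (hη : η ≤ g / 2) :
    Cor h hi (lossOf P A6 τ) η := by
  intro v hv l hl
  obtain ⟨j, k, u, w, z, h1, h2, h3, h4, h5, h6, h7, h8, h9, -⟩ :=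
    h.good_corner hi hG hK0c hG0 hGnn hε hε1 hεG hKε hcop hT hη hv hl
  exact ⟨j, k, u, w, z, h1, h2, h3, h4, h5, h6, h7, h8, h9⟩

/-- **The local facts from the cells.** -/
theorem loc_of_cells [Finite ι] (h : W82.Tiling D P)
    (hi : (interior (convexHull ℝ (Vb D P))).Nonempty) {K K0 : Set V}
    {T6 A6 τ g ε G η ν a b R0 M ρ : ℝ} {t : ι → Bool} {c s : ι → ℝ} {o : ι → V}
    (hG : Gap K0 T6 τ g) (hK0c : Convex ℝ K0) (hG0 : volume K0 ≤ ENNReal.ofReal G)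
    (hGnn : 0 ≤ G) (hε : 0 ≤ ε) (hε1 : ε ≤ 1) (hεG : 3 * ε * G ≤ g / 2)
    (hKε : K ⊆ (1 + ε) • K0) (hcop : Copies P K) (hT : T6 ≤ A6) (hη : η ≤ g / 2)
    (hν : 0 ≤ ν) (hν1 : ν ≤ 1)
    (hC : Cells P K0 ν ε a b 1 0 t c s o) (hK : K0 ⊆ Metric.closedBall 0 R0)
    (hab : a ^ 2 + b ^ 2 = 1) (hM : 2 * R0 ≤ M) (hM0 : 0 < M)
    (hsym : ∀ (t : Bool) (q : Fin 6 → V), Conv6 q →
      (∀ k, InBody K0 a b t ((1 + ε)⁻¹ • q k)) → T6 - η ≤ ar6 q →
      ∀ k, ∀ j : Fin 2, |((q (k + 1) - q k) + (q (k + 4) - q (k + 3))) j| ≤ ρ) :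
    Loc h hi (lossOf P A6 τ) η ν c s τ (4 * M) (64 * M ^ 2 / τ) ρ := by
  have hself : ∀ i : ι, |c i * s i - s i * c i| ≤ 1 := by
    intro i
    have : c i * s i - s i * c i = 0 := by ring
    rw [this, abs_zero]
    exact zero_le_one
  refine ⟨hG.tau, by positivity, hν, hν1, hC.fr, ?_, ?_, ?_, ?_, ?_⟩
  · intro i u v w hp hu hw
    exact h.corner_cost hi hG hK0c hG0 hGnn hε hε1 hεG hKε hcop hT hη hp hw hu
  · intro i p hp q hq
    exact hC.ux_le hK hab hε hε1 hν hν1 (Ro := 0) (by simp) (by linarith) (hC.fr i) hp hq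
  · intro i p hp q hq
    exact hC.uy_le hK hab hε hε1 hν hν1 (Ro := 0) (by simp) (by linarith) (hC.fr i) (hself i)
      hp hq
  · intro v hv l m hl hm
    exact h.mis_good hi hG hK0c hG0 hGnn hε hε1 hεG hKε hcop hT hη hC hK hab hν hν1
      (Ro := 0) (by simp) (by linarith) hM0 hv hl hm
  · intro i q hp hq
    have hq0 : q 0 ∈ S P (i : ι) :=
      hp.only _ (h.hull_sub i (hq 0).1.2) (h.mem_M.mp (hq 0).1.1)
    obtain ⟨q', hq'0, hE', hconv, hS', harea, -, -⟩ := label h hi hp hq0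
    have hqq : q' = q := label_unique (h.toTL hi) hq hE' hq'0
    subst hqq
    choose x hx using fun k => hC.loc i (q' k) (hS' k).1.1
    have hx1 : ∀ k, q' k = Pos ν 1 0 (t i) (c i) (s i) (o i) (x k) := fun k => (hx k).1
    have hqfun : q' = fun k => Pos ν 1 0 (t i) (c i) (s i) (o i) (x k) := funext hx1
    have hxc : Conv6 x := by
      rw [hqfun, W82.conv6_Pos hC.off (hC.fr i)] at hconv
      exact hconv
    have hxa : T6 - η ≤ ar6 x := by
      have h1 := (W82.Perfect.edges h hi hp).2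
      have h2 : (h.toTL hi).P i = convexHull ℝ (S P (i : ι)) := rfl
      rw [h2, ← harea] at h1
      rw [hqfun, W82.ar6_Pos hC.off (hC.fr i)] at h1
      linarith
    have hnear := hsym (t i) x hxc (fun k => (hx k).2) hxa
    intro k
    have hdiff : ∀ k l, q' k - q' l = Am ν (c i) (s i) (x k - x l) := by
      intro k l
      rw [hx1 k, hx1 l, W82.Pos_sub, off_one_zero]
    have hcomb : (q' (k + 1) - q' k) + (q' (k + 4) - q' (k + 3)) =
        Am ν (c i) (s i) ((x (k + 1) - x k) + (x (k + 4) - x (k + 3))) := by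
      rw [hdiff, hdiff, am_add]
    obtain ⟨h3, h4⟩ := u_pos (hC.fr i) ((x (k + 1) - x k) + (x (k + 4) - x (k + 3)))
    rw [hcomb, h3, h4]
    exact ⟨hnear k 0, hnear k 1⟩

end C2305bG
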