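import Pool.Agent.W82_c2305b.AF8
import Pool.Agent.W_c2305b_h72.Cut
import Pool.Agent.W_c2305b_h68.SpM

/-!
# MP_c2305b_co, ALLFAT: the fields `cut`, `short`, `eW`, `out`, `inn`, `hasCell` of the abstract system
-/

open Set Module MeasureTheory Topology Filter

namespace C2305bAF

open W82
open C2305b.TL (cr dt)
open C2305bFat (Vio Frame turn NearP miss capsOf Own)

section

variable {ι : Type} [Fintype ι] {D : Set V} {P : ι → Set V} {h : Tiling D P}
  {hi : (interior (convexHull ℝ (Vb D P))).Nonempty} {own : V × V → ι} {Tf : V → V}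
  {ls le : ι → V × V → ℝ} {kk : ι → V × V → ℤ} {m : ι → ℝ} {A6 τ : ℝ} {c : V → V} {l0 e1 : ℝ}

theorem plug_eW : ∀ i, ∀ e ∈ (plug h hi own Tf ls le kk m A6 τ c l0 e1).E i,
    (e.1 ∈ (plug h hi own Tf ls le kk m A6 τ c l0 e1).W ∧
      (plug h hi own Tf ls le kk m A6 τ c l0 e1).In e.1 i) ∧
    (e.2 ∈ (plug h hi own Tf ls le kk m A6 τ c l0 e1).W ∧
      (plug h hi own Tf ls le kk m A6 τ c l0 e1).In e.2 i) := by
  intro i e he
  obtain ⟨hn, hE⟩ := plug_mem he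
  rw [(h.toTL hi).mem_edges] at hE
  exact ⟨⟨hE.1.1, h.hull_sub i hE.1.2⟩, ⟨hE.2.1.1, h.hull_sub i hE.2.1.2⟩⟩

theorem plug_out : ∀ i, ∀ e ∈ (plug h hi own Tf ls le kk m A6 τ c l0 e1).E i,
    ∀ e' ∈ (plug h hi own Tf ls le kk m A6 τ c l0 e1).E i, e.1 = e'.1 → e = e' := by
  intro i e he e' he' h1
  obtain ⟨hn, hE⟩ := plug_mem he
  obtain ⟨hn', hE'⟩ := plug_mem he'
  rw [(h.toTL hi).mem_edges] at hE hE'
  rw [← h1] at hE'
  exact Prod.ext h1 ((h.toTL hi).next_unique ⟨i, hn⟩ hE' hE)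

theorem plug_inn : ∀ i, ∀ e ∈ (plug h hi own Tf ls le kk m A6 τ c l0 e1).E i,
    ∀ e' ∈ (plug h hi own Tf ls le kk m A6 τ c l0 e1).E i, e.2 = e'.2 → e = e' := by
  intro i e he e' he' h1
  obtain ⟨hn, hE⟩ := plug_mem he
  obtain ⟨hn', hE'⟩ := plug_mem he'
  rw [(h.toTL hi).mem_edges] at hE hE'
  rw [← h1] at hE'
  exact Prod.ext ((h.toTL hi).prev_unique ⟨i, hn⟩ hE' hE) h1

theorem plug_Wv {v : V} : v ∈ (plug h hi own Tf ls le kk m A6 τ c l0 e1).W ↔ v ∈ Wv P := by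
  rw [plug_W]
  exact mem_iUnion.symm

theorem plug_hasCell : ∀ v ∈ (plug h hi own Tf ls le kk m A6 τ c l0 e1).W,
    ∃ i, (plug h hi own Tf ls le kk m A6 τ c l0 e1).In v i := by
  intro v hv
  obtain ⟨i, hi'⟩ := plug_W.mp hv
  exact ⟨i, hi'.1.1⟩

end

/-- **Clusters and cut-off functions of the abstract system.**  Given are the clusters `c` and the
length `l0`; the system has the fields `short` and `cut`, and a cluster at which only good cells meet
has diameter at most `1` and meets at most `N0` cells. -/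
theorem plug_cut (al a : ℝ) (hal : 0 < al) (ha : 0 < a) :
    ∃ l0 : ℝ, 0 < l0 ∧ ∃ N0 : ℕ, ∃ C5 : ℝ, 0 < C5 ∧
    ∀ {ι : Type} [Fintype ι] {D : Set V} {P : ι → Set V} (h : Tiling D P),
      (∀ i, ∀ x ∈ P i, ∀ y ∈ P i, dist x y ≤ al) →
    ∃ c : V → V, (∀ v ∈ Wv P, ∀ w ∈ Wv P, dist v w < l0 → c v = c w) ∧
      ∀ (hi : (interior (convexHull ℝ (Vb D P))).Nonempty) (own : V × V → ι) (Tf : V → V)
        (ls le : ι → V × V → ℝ) (kk : ι → V × V → ℤ) (m : ι → ℝ) (A6 τ e1 μ0 : ℝ), 0 < μ0 →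
        (∀ i, m i ≤ μ0 →
          ¬ (plug h hi own Tf ls le kk m A6 τ c l0 e1).Sp i → a ≤ (volume (P i)).toReal) →
      (∀ i, ∀ e ∈ (plug h hi own Tf ls le kk m A6 τ c l0 e1).E i,
        ¬ (plug h hi own Tf ls le kk m A6 τ c l0 e1).lo e →
        (plug h hi own Tf ls le kk m A6 τ c l0 e1).c e.1 =
          (plug h hi own Tf ls le kk m A6 τ c l0 e1).c e.2) ∧
      (∀ (μ : ℝ) (sp : Finset V) (k0 : ℝ), 0 < μ → μ ≤ μ0 →
        sp ⊆ (plug h hi own Tf ls le kk m A6 τ c l0 e1).W → 1 ≤ k0 →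
        ∃ f : V → ℝ, (plug h hi own Tf ls le kk m A6 τ c l0 e1).Cut N0 C5
          ((plug h hi own Tf ls le kk m A6 τ c l0 e1).bad μ) sp k0 f) ∧
      (∀ v ∈ Wv P, (∀ w ∈ Wv P, c w = c v → ∀ i, w ∈ P i →
          m i ≤ μ0 ∧ ¬ (plug h hi own Tf ls le kk m A6 τ c l0 e1).Sp i) →
        ({i | ∃ w ∈ Wv P, w ∈ P i ∧ c w = c v} : Set ι).ncard ≤ N0 ∧
        ({w | w ∈ Wv P ∧ c w = c v} : Set V).ncard ≤ N0 ∧
        ∀ w ∈ Wv P, c w = c v → dist v w ≤ 1) := by
  classical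
  obtain ⟨l0, hl0, N0, C5, hC5, H⟩ := cluster_cutoff al a hal ha
  refine ⟨l0, hl0, N0, C5, hC5, ?_⟩
  intro ι _ D P h hball
  obtain ⟨c, hc, Hc⟩ := H h hball
  refine ⟨c, hc, ?_⟩
  intro hi own Tf ls le kk m A6 τ e1 μ0 hμ0 hgood
  set T : C2305bA.Sys ι V := plug h hi own Tf ls le kk m A6 τ c l0 e1 with hT
  have hTc : T.c = c := rfl
  have hTIn : ∀ v i, T.In v i ↔ v ∈ P i := fun _ _ => Iff.rfl
  have hTW : ∀ v, v ∈ T.W ↔ v ∈ Wv P := fun v => plug_Wv
  have hTm : T.m = m := rfl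
  refine ⟨?_, ?_, ?_⟩
  · intro i e he hlo
    have h1 := plug_eW i e he
    have hlo' : dist e.1 e.2 < l0 := not_le.mp hlo
    exact hc _ ((hTW _).mp h1.1.1) _ ((hTW _).mp h1.2.1) hlo'
  · intro μ sp k0 hμ hμ' hsp hk0
    have hbad : ∀ i, i ∉ ((T.bad μ : Finset ι) : Set ι) → a ≤ (volume (P i)).toReal := by
      intro i hi'
      rw [Finset.mem_coe, C2305bA.Sys.bad, Finset.mem_filter] at hi'
      push Not at hi'
      obtain ⟨h1, h2⟩ := hi' (Finset.mem_univ i)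
      exact hgood i (h1.trans hμ') h2
    obtain ⟨f, f1, f2, f3, f4, f5, f6, f7, f8, f9⟩ :=
      Hc ((T.bad μ : Finset ι) : Set ι) hbad (sp : Set V) sp.finite_toSet k0 hk0
    refine ⟨f, ?_⟩
    constructor
    · exact fun v => (f1 v).1
    · exact fun v => (f1 v).2
    · intro v hv i hi' hvi
      exact f2 v ((hTW v).mp hv) i (Finset.mem_coe.mpr hi') hvi
    · intro v hv
      exact f3 v ((hTW v).mp (hsp hv)) (Finset.mem_coe.mpr hv)
    · intro v hv w hw hvw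
      exact f4 v ((hTW v).mp hv) w ((hTW w).mp hw) hvw
    · intro i v hv w hw hvi hwi
      exact f5 i v ((hTW v).mp hv) w ((hTW w).mp hw) hvi hwi
    · have e : ({i | i ∉ ((T.bad μ : Finset ι) : Set ι) ∧ ∃ v ∈ Wv P, v ∈ P i ∧ f v < 1} : Set ι) =
          ((Finset.univ.filter fun i => i ∉ T.bad μ ∧ ∃ v ∈ T.W, T.In v i ∧ f v < 1 : Finset ι) :
            Set ι) := by
        ext i
        simp only [mem_ofPred_eq, Finset.mem_coe, Finset.coe_filter, Finset.mem_univ, true_and]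
        refine and_congr Iff.rfl ?_
        constructor
        · rintro ⟨v, h1, h2⟩
          exact ⟨v, (hTW v).mpr h1, h2⟩
        · rintro ⟨v, h1, h2⟩
          exact ⟨v, (hTW v).mp h1, h2⟩
      rw [e, Set.ncard_coe_finset, Set.ncard_coe_finset, Set.ncard_coe_finset] at f6
      convert f6
    · intro v hv hfv
      have h1 := (f7 v ((hTW v).mp hv) hfv).1
      have e : ({i | ∃ w ∈ Wv P, w ∈ P i ∧ c w = c v} : Set ι) =
          ((Finset.univ.filter fun i => ∃ w ∈ T.W, T.In w i ∧ T.c w = T.c v : Finset ι) :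
            Set ι) := by
        ext i
        simp only [mem_ofPred_eq, Finset.coe_filter, Finset.mem_univ, true_and]
        constructor
        · rintro ⟨v, h1, h2⟩
          exact ⟨v, (hTW v).mpr h1, h2⟩
        · rintro ⟨v, h1, h2⟩
          exact ⟨v, (hTW v).mp h1, h2⟩
      rw [e, Set.ncard_coe_finset] at h1
      convert h1
    · intro v hv hfv w hw hwv i hwi hib
      exact (f7 v ((hTW v).mp hv) hfv).2.1 i w ((hTW w).mp hw) hwi hwv (Finset.mem_coe.mpr hib)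
    · intro v hv hfv
      have h1 := (f7 v ((hTW v).mp hv) hfv).2.2.1
      have e : ({w | w ∈ Wv P ∧ c w = c v} : Set V) =
          ((T.W.filter fun w => T.c w = T.c v : Finset V) : Set V) := by
        ext w
        simp only [mem_ofPred_eq, Finset.coe_filter]
        exact and_congr (hTW w).symm Iff.rfl
      rw [e, Set.ncard_coe_finset] at h1
      convert h1
    · intro i
      have h1 := f8 i
      have e : ({v | v ∈ Wv P ∧ v ∈ P i ∧ 0 < f v} : Set V) =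
          ((T.W.filter fun v => T.In v i ∧ 0 < f v : Finset V) : Set V) := by
        ext w
        simp only [mem_ofPred_eq, Finset.coe_filter]
        exact and_congr (hTW w).symm Iff.rfl
      rw [e, Set.ncard_coe_finset] at h1
      convert h1
    · intro v hv hfv
      obtain ⟨w, h1, h2, h3⟩ := f9 v ((hTW v).mp hv) hfv
      refine ⟨w, (hTW w).mpr h1, h2, ?_⟩
      rcases h3 with h3 | ⟨i, h3, h4⟩
      · exact Or.inl (Finset.mem_coe.mp h3)
      · exact Or.inr ⟨i, Finset.mem_coe.mp h3, h4⟩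
  · intro v hv hvg
    have hbad : ∀ i, i ∉ ((T.bad μ0 : Finset ι) : Set ι) → a ≤ (volume (P i)).toReal := by
      intro i hi'
      rw [Finset.mem_coe, C2305bA.Sys.bad, Finset.mem_filter] at hi'
      push Not at hi'
      obtain ⟨h1, h2⟩ := hi' (Finset.mem_univ i)
      exact hgood i h1 h2
    obtain ⟨f, f1, f2, f3, f4, f5, f6, f7, f8, f9⟩ :=
      Hc ((T.bad μ0 : Finset ι) : Set ι) hbad (∅ : Set V) Set.finite_empty 1 le_rfl
    have hfv : 0 < f v := by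
      refine lt_of_le_of_ne (f1 v).1 fun h0 => ?_
      obtain ⟨w, h1, h2, h3⟩ := f9 v hv h0.symm
      rcases h3 with h3 | ⟨i, h3, h4⟩
      · exact absurd h3 (Set.notMem_empty w)
      · obtain ⟨h5, h6⟩ := hvg w h1 h2 i h4
        rw [Finset.mem_coe, C2305bA.Sys.bad, Finset.mem_filter] at h3
        rcases h3.2 with h7 | h7
        · exact absurd h5 (not_le.mpr h7)
        · exact h6 h7
    obtain ⟨g1, g2, g3, g4⟩ := f7 v hv hfv
    exact ⟨g1, g3, g4⟩

theorem vol_ball_one : 3 ≤ (volume (Metric.closedBall (0 : V) 1)).toReal := by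
  rw [EuclideanSpace.volume_closedBall_fin_two]
  rw [ENNReal.toReal_mul, ENNReal.toReal_pow, ENNReal.toReal_ofReal zero_le_one,
    ENNReal.toReal_ofReal Real.pi_pos.le]
  have := Real.pi_gt_three
  nlinarith

/-- A cell with small missing area has area at least `2`. -/
theorem vol_good {ι : Type} {K : Set V} {P : ι → Set V} (hK : IsCompact K)
    (hB : Metric.closedBall (0 : V) 1 ⊆ K) {i : ι} {μ0 : ℝ} (hμ : μ0 ≤ 1)
    (hm : miss K P i ≤ μ0) : 2 ≤ (volume (P i)).toReal := by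
  have h1 : (volume (Metric.closedBall (0 : V) 1)).toReal ≤ (volume K).toReal :=
    ENNReal.toReal_mono hK.measure_lt_top.ne (measure_mono hB)
  have h2 := vol_ball_one
  unfold miss at hm
  linarith

/-- **Clusters and cut-off functions, for a violation.** -/
theorem plug_cutV (al : ℝ) (hal : 0 < al) :
    ∃ l0 : ℝ, 0 < l0 ∧ ∃ N0 : ℕ, ∃ C5 : ℝ, 0 < C5 ∧
    ∀ {ι : Type} [Fintype ι] {D K : Set V} {P : ι → Set V} (hV : Vio D P K), IsCompact K →
      Metric.closedBall (0 : V) 1 ⊆ K → K ⊆ Metric.closedBall 0 al →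
    ∃ c : V → V, (∀ v ∈ Wv P, ∀ w ∈ Wv P, dist v w < l0 → c v = c w) ∧
      ∀ (own : V × V → ι) (Tf : V → V)
        (ls le : ι → V × V → ℝ) (kk : ι → V × V → ℤ) (A6 τ e1 μ0 : ℝ), 0 < μ0 → μ0 ≤ 1 →
      (∀ i, ∀ e ∈ (plug hV.til hV.hull own Tf ls le kk (miss K P) A6 τ c l0 e1).E i,
        ¬ (plug hV.til hV.hull own Tf ls le kk (miss K P) A6 τ c l0 e1).lo e →
        (plug hV.til hV.hull own Tf ls le kk (miss K P) A6 τ c l0 e1).c e.1 =
          (plug hV.til hV.hull own Tf ls le kk (miss K P) A6 τ c l0 e1).c e.2) ∧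
      (∀ (μ : ℝ) (sp : Finset V) (k0 : ℝ), 0 < μ → μ ≤ μ0 →
        sp ⊆ (plug hV.til hV.hull own Tf ls le kk (miss K P) A6 τ c l0 e1).W → 1 ≤ k0 →
        ∃ f : V → ℝ, (plug hV.til hV.hull own Tf ls le kk (miss K P) A6 τ c l0 e1).Cut N0 C5
          ((plug hV.til hV.hull own Tf ls le kk (miss K P) A6 τ c l0 e1).bad μ) sp k0 f) ∧
      (∀ v ∈ Wv P, (∀ w ∈ Wv P, c w = c v → ∀ i, w ∈ P i →
          miss K P i ≤ μ0 ∧
            ¬ (plug hV.til hV.hull own Tf ls le kk (miss K P) A6 τ c l0 e1).Sp i) →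
        ({i | ∃ w ∈ Wv P, w ∈ P i ∧ c w = c v} : Set ι).ncard ≤ N0 ∧
        ({w | w ∈ Wv P ∧ c w = c v} : Set V).ncard ≤ N0 ∧
        ∀ w ∈ Wv P, c w = c v → dist v w ≤ 1) := by
  obtain ⟨l0, hl0, N0, C5, hC5, H⟩ := plug_cut (2 * al) 2 (by linarith) two_pos
  refine ⟨l0, hl0, N0, C5, hC5, ?_⟩
  intro ι _ D K P hV hK hB hKal
  obtain ⟨c, hc, Hc⟩ := H hV.til (fun i x hx y hy => by
    rw [dist_eq_norm]
    exact hV.cop.dist_le hKal hx hy)
  refine ⟨c, hc, fun own Tf ls le kk A6 τ e1 μ0 hμ0 hμ1 => ?_⟩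
  exact Hc hV.hull own Tf ls le kk (miss K P) A6 τ e1 μ0 hμ0
    fun i hm _ => vol_good hK hB hμ1 hm

end C2305bAF
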