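import Pool.Agent.W_c2305b_h35.Third2
import Pool.Agent.W_c2305b_h72.SignedFlux
import Pool.Agent.W_c2305b_h86.Defs
import Pool.Agent.W82_c2305b.NeedleFr

/-!
# Regular tiles from perfect cells (MP_c2305b_co, row 552, module RE)
-/

namespace C2305bG

open Set MeasureTheory C2305b.TL
open C2305bB (Fr mis Fits al Blk goodSides Meets)
open C2305b.Rig (Conv6 ar6 InBody Am Pos Off Sym6 LeMax)
open W82 (Vb Tv Fv kv cap S Gap Copies Cells GoodV Perfect lossOf ux uy mkFr)

open scoped Pointwise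

variable {ι : Type} {D : Set V} {P : ι → Set V}

/-- The local coordinates of the normalized frame, up to a common sign. -/
theorem lx_mkFr {L c s : ℝ} (hL : 0 < L) (h : c ^ 2 + (s / L) ^ 2 = 1) :
    ∃ σ : ℝ, (σ = 1 ∨ σ = -1) ∧ ∀ v : V,
      lx L (mkFr L c s h) v = σ * ux (1 / L ^ 2) c s v ∧
      ly L (mkFr L c s h) v = σ * uy c s v := by
  have hL' : L ≠ 0 := hL.ne'
  by_cases h0 : 0 ≤ c
  · refine ⟨1, Or.inl rfl, fun v => ?_⟩
    unfold lx ly ux uy mkFr
    rw [dif_pos h0]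
    constructor
    · simp only
      field_simp
    · simp only
      field_simp
  · refine ⟨-1, Or.inr rfl, fun v => ?_⟩
    unfold lx ly ux uy mkFr
    rw [dif_neg h0]
    constructor
    · simp only
      field_simp
      ring
    · simp only
      field_simp
      ring

theorem off_one_zero (ν : ℝ) (t : Bool) (v : V) : Off ν 1 0 t v = v := by
  cases t
  · rfl
  · ext i
    fin_cases i
    · simp [Off, Am]
    · simp [Off, Am]

theorem am_add (ν c s : ℝ) (u v : V) : Am ν c s (u + v) = Am ν c s u + Am ν c s v := by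
  ext i
  fin_cases i
  · simp [Am]; ring
  · simp [Am]; ring

/-- Local coordinates of a difference of positions. -/
theorem u_pos {ν c s : ℝ} (h : c ^ 2 + ν * s ^ 2 = 1) (v : V) :
    ux ν c s (Am ν c s v) = v 0 ∧ uy c s (Am ν c s v) = v 1 := by
  obtain ⟨h1, h2⟩ := W82.am_inv h v
  exact ⟨h1, h2⟩

/-- Local coordinates are linear. -/
theorem u_min_hull {ν c s α β m : ℝ} {X : Set V}
    (h : ∀ x ∈ X, m ≤ α * ux ν c s x + β * uy c s x) :
    ∀ x ∈ convexHull ℝ X, m ≤ α * ux ν c s x + β * uy c s x := by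
  have hc : Convex ℝ {x : V | m ≤ α * ux ν c s x + β * uy c s x} := by
    intro x hx y hy p q hp hq hpq
    rw [Set.mem_ofPred_eq] at hx hy ⊢
    have e : α * ux ν c s (p • x + q • y) + β * uy c s (p • x + q • y) =
        p * (α * ux ν c s x + β * uy c s x) + q * (α * ux ν c s y + β * uy c s y) := by
      simp only [ux, uy, PiLp.add_apply, PiLp.smul_apply, smul_eq_mul]
      ring
    rw [e]
    have h1 := mul_le_mul_of_nonneg_left hx hp
    have h2 := mul_le_mul_of_nonneg_left hy hq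
    have h3 : m = p * m + q * m := by rw [← add_mul, hpq, one_mul]
    linarith
  exact fun x hx => convexHull_min h hc hx

/-- **A perfect cell with good corners is a regular tile.** -/
theorem regTile [Finite ι] (h : W82.Tiling D P)
    (hi : (interior (convexHull ℝ (Vb D P))).Nonempty) {K K0 : Set V}
    {T6 A6 τ g ε G η L a b R0 M ρ : ℝ} {t : ι → Bool} {c s : ι → ℝ} {o : ι → V}
    (hG : Gap K0 T6 τ g) (hK0c : Convex ℝ K0) (hG0 : volume K0 ≤ ENNReal.ofReal G)
    (hGnn : 0 ≤ G) (hε : 0 ≤ ε) (hε1 : ε ≤ 1) (hεG : 3 * ε * G ≤ g / 2)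
    (hKε : K ⊆ (1 + ε) • K0) (hcop : Copies P K) (hT : T6 ≤ A6) (hη : η ≤ g / 2)
    (hηT : η ≤ T6 / 2) (hL : 1 ≤ L)
    (hC : Cells P K0 (1 / L ^ 2) ε a b 1 0 t c s o) (hK : K0 ⊆ Metric.closedBall 0 R0)
    (hab : a ^ 2 + b ^ 2 = 1) (hM : 2 * R0 ≤ M) (hM0 : 0 < M)
    (hfr : ∀ i, c i ^ 2 + (s i / L) ^ 2 = 1)
    (hsym : ∀ (t : Bool) (q : Fin 6 → V), Conv6 q →
      (∀ k, InBody K0 a b t ((1 + ε)⁻¹ • q k)) → T6 - η ≤ ar6 q →
      ∀ k, ∀ j : Fin 2, |((q (k + 1) - q k) + (q (k + 4) - q (k + 3))) j| ≤ ρ)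
    {i : {i : ι // (interior (convexHull ℝ (S P i))).Nonempty}}
    (hp : Perfect D P (lossOf P A6 τ) η i)
    (hgood : ∀ v ∈ S P i, GoodV D P (lossOf P A6 τ) η v) :
    RegTile L ρ (τ ^ 2 / (1024 * M ^ 3)) (T6 / 2) (h.toTL hi)
      (fun i : {i : ι // (interior (convexHull ℝ (S P i))).Nonempty} =>
        mkFr L (c i) (s i) (hfr i)) i := by
  have hL0 : 0 < L := by linarith
  set T := h.toTL hi with hTdef
  have hPi : T.P i = convexHull ℝ (S P i) := rfl
  have hRi : T.R = convexHull ℝ (Vb D P) := rfl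
  have hν : 0 ≤ 1 / L ^ 2 := by positivity
  have hν1 : 1 / L ^ 2 ≤ 1 := by
    rw [div_le_one (by positivity)]
    nlinarith
  have hvS : ∀ v ∈ T.W, v ∈ T.P i → v ∈ S P i := by
    intro v hv hvi
    have hv' : v ∈ h.M := hv
    exact hp.only v (h.hull_sub i hvi) (h.mem_M.mp hv')
  have hedge := W82.Perfect.edges h hi hp
  refine ⟨?_, ?_, ?_, ?_, ?_, ?_⟩
  · -- area
    have := hedge.2
    linarith
  · -- inner
    intro v w hE
    obtain ⟨hvF, hk3, _⟩ := hgood v (hvS v hE.1.1 hE.1.2)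
    obtain ⟨j, k, u, z, hu, hj, -⟩ := h.corner hi hvF hk3 hE
    exact ⟨j, hj⟩
  · -- interior
    rw [hPi, hRi]
    exact convexHull_min (fun v hv => h.fv_interior hi (hgood v hv).1)
      (convex_convexHull ℝ _).interior
  · -- extreme
    intro v hv hvi
    have hvS' := hvS v hv hvi
    exact inter_extremePoints_subset_extremePoints_of_subset (h.hull_sub i) ⟨hvi, hvS'.1⟩
  · -- symmetric
    have h6 : (T.verts i).card = 6 := by rw [← T.card_edges]; exact hedge.1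
    obtain ⟨q, hinj, hq, hE, hconv, harea⟩ := T.exists_label i h6
    refine ⟨q, hinj, hq, ?_⟩
    have hqS : ∀ k, q k ∈ S P i := fun k => hvS _ (hE k).1.1 (hE k).1.2
    choose x hx using fun k => hC.loc i (q k) (hqS k).1.1
    have hx1 : ∀ k, q k = Pos (1 / L ^ 2) 1 0 (t i) (c i) (s i) (o i) (x k) := fun k => (hx k).1
    have hqfun : q = fun k => Pos (1 / L ^ 2) 1 0 (t i) (c i) (s i) (o i) (x k) := funext hx1
    have hxc : Conv6 x := by
      rw [hqfun, W82.conv6_Pos hC.off (hC.fr i)] at hconv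
      exact hconv
    have hxa : T6 - η ≤ ar6 x := by
      have h1 := hedge.2
      rw [harea] at h1
      rw [hqfun, W82.ar6_Pos hC.off (hC.fr i)] at h1
      linarith
    have hnear := hsym (t i) x hxc (fun k => (hx k).2) hxa
    intro k
    have hdiff : ∀ k l, q k - q l = Am (1 / L ^ 2) (c i) (s i) (x k - x l) := by
      intro k l
      rw [hx1 k, hx1 l, W82.Pos_sub, off_one_zero]
    have hcomb : (q (k + 1) - q k) + (q (k + 4) - q (k + 3)) =
        Am (1 / L ^ 2) (c i) (s i) ((x (k + 1) - x k) + (x (k + 4) - x (k + 3))) := by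
      rw [hdiff, hdiff, am_add]
    obtain ⟨σ, hσ, hlxy⟩ := lx_mkFr hL0 (hfr i)
    have hσ1 : |σ| = 1 := by rcases hσ with rfl | rfl <;> simp
    obtain ⟨h1, h2⟩ := hlxy ((q (k + 1) - q k) + (q (k + 4) - q (k + 3)))
    obtain ⟨h3, h4⟩ := u_pos (hC.fr i) ((x (k + 1) - x k) + (x (k + 4) - x (k + 3)))
    rw [hcomb, h3] at h1
    rw [hcomb, h4] at h2
    rw [hcomb]
    constructor
    · show |lx L (mkFr L (c i) (s i) (hfr i)) _| ≤ ρ
      rw [h1, abs_mul, hσ1, one_mul]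
      exact hnear k 0
    · show |ly L (mkFr L (c i) (s i) (hfr i)) _| ≤ ρ
      rw [h2, abs_mul, hσ1, one_mul]
      exact hnear k 1
  · -- the third edge
    intro α β hα hα1 hβ
    obtain ⟨σ, hσ, hlxy⟩ := lx_mkFr hL0 (hfr i)
    have hσ1 : |σ| = 1 := by rcases hσ with rfl | rfl <;> simp
    -- the vertex where the functional is minimal
    obtain ⟨v, hv, hmin⟩ := (h.S_finite i).exists_minimalFor
      (fun x => (α * σ) * ux (1 / L ^ 2) (c i) (s i) x + (β * σ) * uy (c i) (s i) x) (S P i) (by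
        apply Set.nonempty_of_ncard_ne_zero
        rw [hp.card]
        norm_num)
    have hmin' : ∀ x ∈ S P i,
        (α * σ) * ux (1 / L ^ 2) (c i) (s i) v + (β * σ) * uy (c i) (s i) v ≤
        (α * σ) * ux (1 / L ^ 2) (c i) (s i) x + (β * σ) * uy (c i) (s i) x := by
      intro x hx
      rcases le_total ((α * σ) * ux (1 / L ^ 2) (c i) (s i) v + (β * σ) * uy (c i) (s i) v)
        ((α * σ) * ux (1 / L ^ 2) (c i) (s i) x + (β * σ) * uy (c i) (s i) x) with h1 | h1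
      · exact h1
      · exact hmin hx h1
    have hvl : v ∈ P i := hv.1.1
    obtain ⟨j, k, u, w, z, -, -, -, -, -, -, -, -, -, hzS, -, -, -, -, hz⟩ :=
      h.third hi hG hK0c hG0 hGnn hε hε1 hεG hKε hcop hT hη hC hK hab hν hν1
        (so := 0) (Ro := 0) (by simp) (by linarith) hM0 (hgood v hv) hvl
        (α := α * σ) (β := β * σ) (by rw [abs_mul, hσ1, mul_one]; exact hα)
        (by rw [abs_mul, hσ1, mul_one]; exact hα1) (by rw [abs_mul, hσ1, mul_one]; exact hβ) hmin'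
    refine ⟨z, ?_, ?_⟩
    · rw [hRi]
      exact h.sh_hull (W82.S_sub_Sh _ hzS)
    · intro x hx
      rw [hPi] at hx
      have h1 := u_min_hull hmin' x hx
      show α * lx L (mkFr L (c i) (s i) (hfr i)) (z - x) +
        β * ly L (mkFr L (c i) (s i) (hfr i)) (z - x) ≤ _
      obtain ⟨h2, h3⟩ := hlxy (z - x)
      rw [h2, h3, W82.ux_sub, W82.uy_sub]
      rw [W82.ux_sub, W82.uy_sub] at hz
      nlinarith

/-- The hypothesis `hsym` of `regTile`, from `Sym6`. -/
theorem near_sym_data {K0 : Set V} {T6 : ℝ} (hK : IsCompact K0) (hle : LeMax K0 T6)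
    (hs : Sym6 K0 T6) {ρ : ℝ} (hρ : 0 < ρ) :
    ∃ η1 : ℝ, 0 < η1 ∧ ∃ ε0 : ℝ, 0 < ε0 ∧ ∀ η ≤ η1, ∀ ε : ℝ, 0 ≤ ε → ε ≤ ε0 → ∀ a b : ℝ,
      a ^ 2 + b ^ 2 = 1 → ∀ (t : Bool) (q : Fin 6 → V), Conv6 q →
      (∀ k, InBody K0 a b t ((1 + ε)⁻¹ • q k)) → T6 - η ≤ ar6 q →
      ∀ k, ∀ j : Fin 2, |((q (k + 1) - q k) + (q (k + 4) - q (k + 3))) j| ≤ ρ := by
  obtain ⟨η1, hη1, ε0, hε0, h⟩ := C2305b.Rig.N72.near_sym_coord hK hle hs hρ
  refine ⟨η1, hη1, ε0, hε0, fun η hη ε hε hε' a b hab t q hq hqK hqa k j => ?_⟩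
  exact h ε hε hε' a b t q hab hq hqK (by linarith) k j

end C2305bG
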